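import Mathlib

/-!
# Skew-commuting operators: the formal part
-/

set_option autoImplicit false
set_option linter.all false

namespace Pool.Agent.X317.QCI

open Polynomial

/-- homogenising in a field -/
theorem homogK {F K : Type*} [Field F] [Field K] [Algebra F K] (x y : K)
    (hy : y ≠ 0) (ws : Multiset F) (a : ℕ) (ha : Multiset.card ws = a)
    (h : (ws.map fun w => (X : F[X]) - C w).prod = X ^ a - 1) :
    (ws.map fun w => x - algebraMap F K w * y).prod = x ^ a - y ^ a := by
  have h2 : (ws.map fun w => x - algebraMap F K w * y).prod =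
      (ws.map fun w => y * (x / y - algebraMap F K w)).prod := by
    congr 1
    apply Multiset.map_congr rfl
    intro w _
    field_simp
  rw [h2, Multiset.prod_map_mul, Multiset.map_const', Multiset.prod_replicate, ha]
  have h3 : (ws.map fun w => x / y - algebraMap F K w).prod = (x / y) ^ a - 1 := by
    have h4 := congrArg (aeval (x / y)) h
    rw [map_multiset_prod, Multiset.map_map] at h4
    simp only [map_sub, map_pow, aeval_X, map_one] at h4
    rw [← h4]
    congr 1
    apply Multiset.map_congr rfl
    intro w _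
    show _ = aeval (x / y) ((X : F[X]) - C w)
    rw [map_sub, aeval_X, aeval_C]
  rw [h3, div_pow, mul_sub, mul_one, mul_div_cancel₀ _ (pow_ne_zero a hy)]

/-- homogenising `T^a - 1 = ∏ (T - w)` -/
theorem homog {F P : Type*} [Field F] [CommRing P] [IsDomain P] [Algebra F P] (x y : P)
    (hy : y ≠ 0) (ws : Multiset F) (a : ℕ)
    (h : (ws.map fun w => (X : F[X]) - C w).prod = X ^ a - 1) :
    (ws.map fun w => x - algebraMap F P w * y).prod = x ^ a - y ^ a := by
  have ha : Multiset.card ws = a := by
    have h1 := congrArg natDegree h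
    rw [natDegree_multiset_prod_X_sub_C_eq_card] at h1
    rw [h1]
    rcases Nat.eq_zero_or_pos a with rfl | ha
    · simp
    · rw [show (X : F[X]) ^ a - 1 = X ^ a - C 1 by simp]
      exact natDegree_X_pow_sub_C
  apply IsFractionRing.injective P (FractionRing P)
  have hy0 : algebraMap P (FractionRing P) y ≠ 0 :=
    fun h0 => hy ((map_eq_zero_iff _ (IsFractionRing.injective P (FractionRing P))).1 h0)
  have h2 := homogK (algebraMap P (FractionRing P) x) (algebraMap P (FractionRing P) y) hy0 ws a ha h
  rw [map_sub, map_pow, map_pow, ← h2, map_multiset_prod, Multiset.map_map]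
  congr 1
  apply Multiset.map_congr rfl
  intro w _
  show algebraMap P (FractionRing P) (x - algebraMap F P w * y) = _
  rw [map_sub, map_mul, ← IsScalarTower.algebraMap_apply F P (FractionRing P)]

section Ops
variable {F E : Type*} [Field F] [AddCommGroup E] [Module F E]

/-- `L - t R` -/
def Dop (L R : Module.End F E) (t : F) : Module.End F E := L - t • R

/-- `∑ L^l (t R)^{a-1-l}` -/
def Nop (L R : Module.End F E) (a : ℕ) (t : F) : Module.End F E :=
  ∑ l ∈ Finset.range a, L ^ l * (t • R) ^ (a - 1 - l)

theorem Nop_apply (L R : Module.End F E) (a : ℕ) (t : F) (e : E) :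
    Nop L R a t e = ∑ l ∈ Finset.range a, t ^ (a - 1 - l) • (L ^ l) ((R ^ (a - 1 - l)) e) := by
  unfold Nop
  rw [LinearMap.sum_apply]
  refine Finset.sum_congr rfl fun l _ => ?_
  rw [_root_.smul_pow, mul_smul_comm, LinearMap.smul_apply, Module.End.mul_apply]

theorem Nop_mul_Dop {L R : Module.End F E} (h : L * R = R * L) (a : ℕ) (t : F) :
    Nop L R a t * Dop L R t = L ^ a - (t • R) ^ a := by
  have hc : Commute L (t • R) := by
    show L * (t • R) = (t • R) * L
    rw [mul_smul_comm, smul_mul_assoc, h]
  exact hc.geom_sum₂_mul a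

theorem Dop_mul_Nop {L R : Module.End F E} (h : L * R = R * L) (a : ℕ) (t : F) :
    Dop L R t * Nop L R a t = L ^ a - (t • R) ^ a := by
  have hc : Commute L (t • R) := by
    show L * (t • R) = (t • R) * L
    rw [mul_smul_comm, smul_mul_assoc, h]
  exact hc.mul_geom_sum₂ a

/-- `F[x,y]` acting through `L` and `R` -/
noncomputable def Phi {L R : Module.End F E} (h : L * R = R * L) : F[X][X] →+* Module.End F E :=
  Polynomial.eval₂RingHom' (aeval L : F[X] →ₐ[F] Module.End F E).toRingHom R (by
    intro q
    show Commute (aeval L q) R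
    induction q using Polynomial.induction_on' with
    | add p q hp hq =>
      rw [map_add]
      exact hp.add_left hq
    | monomial n c =>
      rw [aeval_monomial]
      have h1 : Commute (algebraMap F (Module.End F E) c) R := Algebra.commute_algebraMap_left c R
      have h2 : Commute L R := h
      exact h1.mul_left (h2.pow_left n))

theorem Phi_x {L R : Module.End F E} (h : L * R = R * L) : Phi h (C X) = L := by
  unfold Phi
  rw [Polynomial.eval₂RingHom'_apply, eval₂_C]
  show aeval L (X : F[X]) = L
  rw [aeval_X]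

theorem Phi_y {L R : Module.End F E} (h : L * R = R * L) : Phi h X = R := by
  unfold Phi
  rw [Polynomial.eval₂RingHom'_apply, eval₂_X]

theorem Phi_c {L R : Module.End F E} (h : L * R = R * L) (t : F) (u : F[X][X]) :
    Phi h (C (C t) * u) = t • Phi h u := by
  rw [map_mul]
  have h1 : Phi h (C (C t)) = algebraMap F (Module.End F E) t := by
    unfold Phi
    rw [Polynomial.eval₂RingHom'_apply, eval₂_C]
    show aeval L (C t : F[X]) = _
    rw [aeval_C]
  rw [h1, ← Algebra.smul_def]

/-- the linear factor -/
noncomputable def lf (t : F) : F[X][X] := C X - C (C t) * X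

theorem Phi_lf {L R : Module.End F E} (h : L * R = R * L) (t : F) : Phi h (lf t) = Dop L R t := by
  unfold lf
  rw [map_sub, Phi_x, Phi_c, Phi_y]
  rfl

theorem lf_ne (t : F) : lf t ≠ 0 := by
  intro h
  have h1 := congrArg (fun q => Polynomial.coeff (Polynomial.coeff q 0) 1) h
  simp [lf] at h1

/-- the geometric sum as a polynomial -/
noncomputable def gs (a : ℕ) (t : F) : F[X][X] :=
  ∑ l ∈ Finset.range a, (C X) ^ l * (C (C t) * X) ^ (a - 1 - l)

theorem Phi_gs {L R : Module.End F E} (h : L * R = R * L) (a : ℕ) (t : F) :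
    Phi h (gs a t) = Nop L R a t := by
  unfold gs Nop
  rw [map_sum]
  refine Finset.sum_congr rfl fun l _ => ?_
  rw [map_mul, map_pow, map_pow, Phi_x, Phi_c, Phi_y]

theorem gs_mul_lf (a : ℕ) (t : F) : gs a t * lf t = (C X) ^ a - (C (C t) * X) ^ a :=
  (Commute.all _ _).geom_sum₂_mul a

/-- products of linear factors -/
noncomputable def pf (s : F) (ws : Multiset F) : F[X][X] := (ws.map fun w => lf (w * s)).prod

theorem pf_add (s : F) (u v : Multiset F) : pf s (u + v) = pf s u * pf s v := by
  unfold pf
  rw [Multiset.map_add, Multiset.prod_add]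

theorem pf_cons (s w : F) (v : Multiset F) : pf s (w ::ₘ v) = lf (w * s) * pf s v := by
  unfold pf
  rw [Multiset.map_cons, Multiset.prod_cons]

/-- the roots of `T^a - 1` -/
structure Rts (F : Type*) [Field F] (a : ℕ) (ws : Multiset F) : Prop where
  prod : ((1 ::ₘ ws).map fun w => (X : F[X]) - C w).prod = X ^ a - 1

theorem Rts.pow {a : ℕ} {ws : Multiset F} (h : Rts F a ws) {w : F} (hw : w ∈ ws) : w ^ a = 1 := by
  have h1 := congrArg (Polynomial.eval w) h.prod
  rw [Polynomial.eval_multiset_prod, Multiset.map_map] at h1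
  have h2 : (0 : F) ∈ ((1 ::ₘ ws).map ((Polynomial.eval w) ∘ fun w => (X : F[X]) - C w)) := by
    rw [Multiset.mem_map]
    refine ⟨w, Multiset.mem_cons_of_mem hw, ?_⟩
    simp
  rw [Multiset.prod_eq_zero h2] at h1
  simp only [eval_sub, eval_pow, eval_X, eval_one] at h1
  exact (sub_eq_zero.1 h1.symm)

theorem Rts.card {a : ℕ} {ws : Multiset F} (h : Rts F a ws) (ha : 0 < a) :
    Multiset.card ws + 1 = a := by
  have h1 := congrArg natDegree h.prod
  rw [natDegree_multiset_prod_X_sub_C_eq_card, Multiset.card_cons] at h1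
  rw [h1, show (X : F[X]) ^ a - 1 = X ^ a - C 1 by simp]
  exact natDegree_X_pow_sub_C

theorem all_gen {P : Type*} [CommRing P] [IsDomain P] [Algebra F P] (x y : P) (hy : y ≠ 0)
    {a : ℕ} {ws : Multiset F} (h : Rts F a ws) {s : F} (hs : s ≠ 0) :
    (x - algebraMap F P s * y) * (ws.map fun w => x - algebraMap F P (w * s) * y).prod =
      x ^ a - (algebraMap F P s * y) ^ a := by
  have hne : algebraMap F P s * y ≠ 0 :=
    mul_ne_zero ((map_ne_zero_iff _ (algebraMap F P).injective).2 hs) hy
  have h1 := homog (F := F) (P := P) x (algebraMap F P s * y) hne (1 ::ₘ ws) a h.prod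
  rw [← h1, Multiset.map_cons, Multiset.prod_cons, map_one, one_mul]
  have h2 : (ws.map fun w => x - algebraMap F P (w * s) * y) =
      ws.map fun w => x - algebraMap F P w * (algebraMap F P s * y) := by
    apply Multiset.map_congr rfl
    intro w _
    rw [map_mul, mul_assoc]
  rw [h2]

theorem alg_eq (w : F) : (algebraMap F F[X][X]) w = C (C w) := rfl

theorem pf_all {a : ℕ} {ws : Multiset F} (h : Rts F a ws) {s : F} (hs : s ≠ 0) :
    lf s * pf s ws = (C X) ^ a - (C (C s) * X) ^ a := by
  have h1 := all_gen (F := F) (P := F[X][X]) (C X) X X_ne_zero h hs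
  simp only [alg_eq] at h1
  exact h1

theorem gs_one {a : ℕ} {ws : Multiset F} (h : Rts F a ws) {s : F} (hs : s ≠ 0) :
    gs a s = pf s ws := by
  apply mul_right_cancel₀ (lf_ne s)
  rw [gs_mul_lf, mul_comm (pf s ws), pf_all h hs]

theorem gs_root {a : ℕ} {ws : Multiset F} (h : Rts F a ws) {s : F} (hs : s ≠ 0) (z : F)
    (pre suf : Multiset F) (hz : ws = (z ::ₘ pre) + suf) :
    gs a (z * s) = pf s suf * (lf s * pf s pre) := by
  apply mul_right_cancel₀ (lf_ne (z * s))
  have hza : z ^ a = 1 := h.pow (by rw [hz]; simp)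
  rw [gs_mul_lf]
  have h1 : (C (C (z * s)) * X : F[X][X]) ^ a = (C (C s) * X) ^ a := by
    rw [C_mul, C_mul, mul_assoc, mul_pow, ← C_pow, ← C_pow, hza]
    simp
  rw [h1, ← pf_all h hs, hz, pf_add, pf_cons]
  ring

end Ops

end Pool.Agent.X317.QCI
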