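import Mathlib
import Pool.Agent.X317.QCI.Ops

/-!
# Systems of skew-commuting operators
-/

set_option autoImplicit false
set_option linter.all false

namespace Pool.Agent.X317.QCI

variable {F E : Type*} [Field F] [AddCommGroup E] [Module F E]

/-- skew commuting operators -/
structure QSys (p : ℕ → ℕ → F) (a : ℕ → ℕ) (L R : ℕ → Module.End F E) : Prop where
  pp : ∀ i j, p i j * p j i = 1
  pi : ∀ i, p i i = 1
  ap : ∀ i, 0 < a i
  LL : ∀ i j, L i * L j = p i j • (L j * L i)
  RR : ∀ i j, R i * R j = p j i • (R j * R i)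
  LR : ∀ i j, L i * R j = R j * L i
  La : ∀ i, L i ^ a i = 0
  Ra : ∀ i, R i ^ a i = 0

namespace QSys

variable {p : ℕ → ℕ → F} {a : ℕ → ℕ} {L R : ℕ → Module.End F E}

theorem p0 (h : QSys p a L R) (i j : ℕ) : p i j ≠ 0 := by
  intro h0
  have := h.pp i j
  rw [h0, zero_mul] at this
  exact zero_ne_one this

theorem pw (h : QSys p a L R) (i j m : ℕ) : p i j ^ m * p j i ^ m = 1 := by
  rw [← mul_pow, h.pp, one_pow]

theorem comm_L (h : QSys p a L R) (i j : ℕ) (s : F) :
    Dop (L i) (R i) s * L j = p i j • (L j * Dop (L i) (R i) (p j i * s)) := by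
  unfold Dop
  rw [sub_mul, mul_sub, h.LL i j, smul_mul_assoc, ← h.LR j i, mul_smul_comm, smul_sub, smul_smul,
    ← mul_assoc, h.pp i j, one_mul]

theorem comm_R (h : QSys p a L R) (i j : ℕ) (s : F) :
    Dop (L i) (R i) s * R j = R j * Dop (L i) (R i) (p j i * s) := by
  unfold Dop
  rw [sub_mul, mul_sub, h.LR i j, smul_mul_assoc, h.RR i j, mul_smul_comm, smul_smul, mul_comm s]

theorem comm_Lp (h : QSys p a L R) (i j : ℕ) (s : F) (l : ℕ) :
    Dop (L i) (R i) s * L j ^ l = p i j ^ l • (L j ^ l * Dop (L i) (R i) (p j i ^ l * s)) := by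
  induction l with
  | zero => simp
  | succ l ih =>
    rw [pow_succ, ← mul_assoc, ih, smul_mul_assoc, mul_assoc, h.comm_L, mul_smul_comm, smul_smul,
      ← mul_assoc, ← pow_succ, ← pow_succ, ← mul_assoc, ← pow_succ']

theorem comm_Rp (h : QSys p a L R) (i j : ℕ) (s t : F) (m : ℕ) :
    Dop (L i) (R i) s * (t • R j) ^ m = (t • R j) ^ m * Dop (L i) (R i) (p j i ^ m * s) := by
  induction m with
  | zero => simp
  | succ m ih =>
    rw [pow_succ, ← mul_assoc, ih, mul_assoc, mul_smul_comm, h.comm_R, ← smul_mul_assoc,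
      ← mul_assoc, ← mul_assoc, ← pow_succ, ← pow_succ']

theorem comm_D (h : QSys p a L R) (i j : ℕ) (s t : F) :
    Dop (L i) (R i) s * Dop (L j) (R j) t =
      p i j • (Dop (L j) (R j) (p j i * t) * Dop (L i) (R i) (p j i * s)) := by
  have e : Dop (L j) (R j) t = L j - t • R j := rfl
  have e' : Dop (L j) (R j) (p j i * t) = L j - (p j i * t) • R j := rfl
  rw [e, e', mul_sub, h.comm_L, mul_smul_comm, h.comm_R, sub_mul, smul_sub, smul_mul_assoc,
    smul_smul, ← mul_assoc (p i j), h.pp, one_mul]

theorem comm_N (h : QSys p a L R) (i j : ℕ) (s t : F) (b : ℕ) :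
    Dop (L i) (R i) s * Nop (L j) (R j) b t =
      p i j ^ (b - 1) • (Nop (L j) (R j) b (p j i * t) * Dop (L i) (R i) (p j i ^ (b - 1) * s)) := by
  unfold Nop
  rw [Finset.mul_sum, Finset.sum_mul, Finset.smul_sum]
  refine Finset.sum_congr rfl fun l hl => ?_
  have hlb : b - 1 = l + (b - 1 - l) := by
    have := Finset.mem_range.1 hl
    omega
  rw [← mul_assoc, h.comm_Lp, smul_mul_assoc, mul_assoc (L j ^ l), h.comm_Rp]
  conv_rhs => rw [mul_smul, smul_pow, mul_smul_comm, smul_mul_assoc, smul_smul]
  have h1 : p i j ^ (b - 1) * p j i ^ (b - 1 - l) = p i j ^ l := by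
    conv_lhs => rw [hlb]
    rw [pow_add, Nat.add_sub_cancel_left, mul_assoc, h.pw, mul_one]
  rw [h1, ← mul_assoc (L j ^ l), ← mul_assoc (p j i ^ (b - 1 - l)), ← pow_add]
  have h2 : b - 1 - l + l = b - 1 := by omega
  rw [h2]

/-- cocycles -/
def Coc (p : ℕ → ℕ → F) (a : ℕ → ℕ) (L R : ℕ → Module.End F E) (k : ℕ) (s : ℕ → F)
    (Z : ℕ → E) : Prop :=
  (∀ i < k, ∀ j < k, Dop (L i) (R i) (s i * p i j) (Z j) =
    p i j • Dop (L j) (R j) (s j * p j i) (Z i)) ∧
  ∀ i < k, Nop (L i) (R i) (a i) (s i) (Z i) = 0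

/-- all cocycles are coboundaries -/
def HH (p : ℕ → ℕ → F) (a : ℕ → ℕ) (L R : ℕ → Module.End F E) (k : ℕ) : Prop :=
  ∀ s : ℕ → F, (∀ i, s i ≠ 0) → ∀ Z : ℕ → E, Coc p a L R k s Z →
    ∃ θ : E, ∀ i < k, Dop (L i) (R i) (s i) θ = Z i

theorem DN (h : QSys p a L R) (k : ℕ) (t : F) (e : E) :
    Dop (L k) (R k) t (Nop (L k) (R k) (a k) t e) = 0 := by
  rw [← Module.End.mul_apply, Dop_mul_Nop (h.LR k k), h.La, smul_pow, h.Ra, smul_zero, sub_zero]
  rfl

theorem ND (h : QSys p a L R) (k : ℕ) (t : F) (e : E) :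
    Nop (L k) (R k) (a k) t (Dop (L k) (R k) t e) = 0 := by
  rw [← Module.End.mul_apply, Nop_mul_Dop (h.LR k k), h.La, smul_pow, h.Ra, smul_zero, sub_zero]
  rfl

theorem Pstep (h : QSys p a L R) {k : ℕ} (hk : HH p a L R (k + 1)) {ws : Multiset F}
    (hw : Rts F (a k) ws) (s : ℕ → F) (hs : ∀ i, s i ≠ 0) (ψ : E)
    (hψ : ∀ i < k + 1, Dop (L i) (R i) (s i) ψ = 0) :
    ∃ φ : E, (∀ i < k, Dop (L i) (R i) (p k i ^ (a k - 1) * s i) φ = 0) ∧
      Nop (L k) (R k) (a k) (s k) φ = ψ := by
  classical
  have key : ∀ pre : Multiset F, pre ≤ ws → ∃ φ : E,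
      (∀ i < k, Dop (L i) (R i) (p k i ^ (Multiset.card pre) * s i) φ = 0) ∧
      Phi (h.LR k k) (pf (s k) pre) φ = ψ := by
    intro pre
    induction pre using Multiset.induction_on with
    | empty =>
      intro _
      refine ⟨ψ, fun i hi => ?_, ?_⟩
      · rw [Multiset.card_zero, pow_zero, one_mul]
        exact hψ i (by omega)
      · show Phi (h.LR k k) (pf (s k) 0) ψ = ψ
        unfold pf
        rw [Multiset.map_zero, Multiset.prod_zero, map_one]
        rfl
    | cons z pre ih =>
      intro hle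
      obtain ⟨suf, hsuf⟩ := Multiset.le_iff_exists_add.1 hle
      obtain ⟨φ, h1, h2⟩ := ih ((Multiset.le_cons_self pre z).trans hle)
      have hza : z ^ a k = 1 := hw.pow (by rw [hsuf]; simp)
      have hz0 : z ≠ 0 := by
        rintro rfl
        rw [zero_pow (h.ap k).ne'] at hza
        exact zero_ne_one hza
      obtain ⟨θ, hθ⟩ := hk (fun i => if i = k then z * s k else p k i ^ (Multiset.card pre + 1) * s i)
        (by
          intro i
          try dsimp only
          split_ifs with hi
          · exact mul_ne_zero hz0 (hs k)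
          · exact mul_ne_zero (pow_ne_zero _ (h.p0 k i)) (hs i))
        (fun i => if i = k then φ else 0) ⟨by
          intro i hi j hj
          try dsimp only
          have e1 : ∀ i, i < k + 1 → i ≠ k →
              Dop (L i) (R i) (p k i ^ (Multiset.card pre + 1) * s i * p i k) φ = 0 := by
            intro i hi hik
            rw [show p k i ^ (Multiset.card pre + 1) * s i * p i k =
              p k i ^ (Multiset.card pre) * s i * (p i k * p k i) by ring, h.pp, mul_one]
            exact h1 i (by omega)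
          by_cases hik : i = k
          · by_cases hjk : j = k
            · subst hik
              subst hjk
              rw [if_pos rfl, if_pos rfl, h.pi, one_smul]
            · subst hik
              rw [if_pos rfl, if_neg hjk, if_neg hjk, if_pos rfl, e1 j hj hjk, smul_zero, map_zero]
          · by_cases hjk : j = k
            · subst hjk
              rw [if_neg hik, if_pos rfl, if_pos rfl, if_neg hik, e1 i hi hik, map_zero, smul_zero]
            · rw [if_neg hik, if_neg hjk, if_neg hjk, if_neg hik, map_zero, map_zero, smul_zero], by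
          intro i hi
          try dsimp only
          by_cases hik : i = k
          · subst hik
            rw [if_pos rfl, if_pos rfl, ← Phi_gs (h.LR i i), gs_root hw (hs i) z pre suf hsuf, map_mul,
              map_mul, Phi_lf, Module.End.mul_apply, Module.End.mul_apply, h2,
              hψ i (by omega), map_zero]
          · rw [if_neg hik, if_neg hik, map_zero]⟩
      refine ⟨θ, fun i hi => ?_, ?_⟩
      · have h3 := hθ i (by omega)
        try dsimp only at h3
        rw [if_neg (by omega), if_neg (by omega)] at h3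
        rw [Multiset.card_cons]
        exact h3
      · have h3 := hθ k (by omega)
        try dsimp only at h3
        rw [if_pos rfl, if_pos rfl] at h3
        rw [pf_cons, mul_comm, map_mul, Phi_lf, Module.End.mul_apply, h3, h2]
  obtain ⟨φ, h1, h2⟩ := key ws le_rfl
  refine ⟨φ, ?_, ?_⟩
  · intro i hi
    have := h1 i hi
    rwa [show Multiset.card ws = a k - 1 by have := hw.card (h.ap k); omega] at this
  · rw [← Phi_gs (h.LR k k), gs_one hw (hs k)]
    exact h2

theorem Bstep (h : QSys p a L R) {k : ℕ} (hk : HH p a L R (k + 1)) {ws : Multiset F}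
    (hw : Rts F (a k) ws) (s : ℕ → F) (hs : ∀ i, s i ≠ 0) (Z : ℕ → E) (hZ : Coc p a L R k s Z)
    (t : F) (ht : t ≠ 0) (W : E)
    (hW : ∀ i < k, Dop (L i) (R i) (p i k * s i) W = p i k • Dop (L k) (R k) (p k i * t) (Z i)) :
    ∃ θ : E, ∀ i < k, Dop (L i) (R i) (s i) θ = Z i := by
  classical
  have e0 : ∀ i, p k i ^ (a k - 1) * (p i k ^ a k * s i) = p i k * s i := by
    intro i
    obtain ⟨b, hb⟩ : ∃ b, a k = b + 1 := ⟨a k - 1, by have := h.ap k; omega⟩
    rw [hb, Nat.add_sub_cancel, pow_succ, show p k i ^ b * (p i k ^ b * p i k * s i) =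
      (p k i ^ b * p i k ^ b) * (p i k * s i) by ring, h.pw, one_mul]
  obtain ⟨φ, h1, h2⟩ := h.Pstep hk hw (fun i => if i = k then t else p i k ^ a k * s i)
    (by
      intro i
      try dsimp only
      split_ifs with hi
      · exact ht
      · exact mul_ne_zero (pow_ne_zero _ (h.p0 i k)) (hs i))
    (Nop (L k) (R k) (a k) t W) (by
      intro i hi
      try dsimp only
      by_cases hik : i = k
      · subst hik
        rw [if_pos rfl]
        exact h.DN i t W
      · rw [if_neg hik, ← Module.End.mul_apply, h.comm_N, e0, LinearMap.smul_apply,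
          Module.End.mul_apply, hW i (by omega), map_smul, h.ND, smul_zero, smul_zero])
  try dsimp only at h1 h2
  rw [if_pos rfl] at h2
  have h1' : ∀ i < k, Dop (L i) (R i) (p i k * s i) φ = 0 := by
    intro i hi
    have h3 := h1 i hi
    rwa [if_neg (by omega), e0] at h3
  have hW' : ∀ i < k, Dop (L i) (R i) (p i k * s i) (W - φ) =
      p i k • Dop (L k) (R k) (p k i * t) (Z i) := by
    intro i hi
    rw [map_sub, h1' i hi, sub_zero, hW i hi]
  obtain ⟨θ, hθ⟩ := hk (fun i => if i = k then t else s i) (by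
      intro i
      try dsimp only
      split_ifs with hi
      · exact ht
      · exact hs i)
    (fun i => if i = k then W - φ else Z i) ⟨by
      intro i hi j hj
      try dsimp only
      by_cases hik : i = k
      · by_cases hjk : j = k
        · subst hik
          subst hjk
          rw [if_pos rfl, if_pos rfl, h.pi, one_smul]
        · subst hik
          rw [if_pos rfl, if_neg hjk, if_neg hjk, if_pos rfl, mul_comm (s j), hW' j (by omega),
            smul_smul, h.pp, one_smul, mul_comm t]
      · by_cases hjk : j = k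
        · subst hjk
          rw [if_neg hik, if_pos rfl, if_pos rfl, if_neg hik, mul_comm (s i), hW' i (by omega),
            mul_comm t]
        · rw [if_neg hik, if_neg hjk, if_neg hjk, if_neg hik]
          exact hZ.1 i (by omega) j (by omega), by
      intro i hi
      try dsimp only
      by_cases hik : i = k
      · subst hik
        rw [if_pos rfl, if_pos rfl, map_sub, h2, sub_self]
      · rw [if_neg hik, if_neg hik]
        exact hZ.2 i (by omega)⟩
  refine ⟨θ, fun i hi => ?_⟩
  have h3 := hθ i (by omega)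
  try dsimp only at h3
  rwa [if_neg (by omega), if_neg (by omega)] at h3

theorem Cstep (h : QSys p a L R) (k : ℕ) (s : ℕ → F) (Z : ℕ → E) (hZ : Coc p a L R k s Z) (t : F) :
    Coc p a L R k (fun i => p i k * s i) (fun i => p i k • Dop (L k) (R k) (p k i * t) (Z i)) := by
  refine ⟨?_, ?_⟩
  · intro i hi j hj
    try dsimp only
    have e1 : ∀ i j, Dop (L i) (R i) (p i k * s i * p i j)
        (p j k • Dop (L k) (R k) (p k j * t) (Z j)) =
        (p j k * p i k) • Dop (L k) (R k) (p k i * (p k j * t))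
          (Dop (L i) (R i) (s i * p i j) (Z j)) := by
      intro i j
      rw [map_smul, ← Module.End.mul_apply, h.comm_D, LinearMap.smul_apply, smul_smul,
        Module.End.mul_apply, show p k i * (p i k * s i * p i j) =
        (p k i * p i k) * (s i * p i j) by ring, h.pp, one_mul]
    rw [e1 i j, e1 j i, hZ.1 i hi j hj, map_smul, smul_smul, smul_smul]
    congr 1
    · ring
    · rw [show p k i * (p k j * t) = p k j * (p k i * t) by ring]
  · intro i hi
    try dsimp only
    have e2 := h.comm_N k i (p k i ^ (a i) * t) (s i) (a i)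
    have e3 : p i k ^ (a i - 1) * (p k i ^ a i * t) = p k i * t := by
      obtain ⟨b, hb⟩ : ∃ b, a i = b + 1 := ⟨a i - 1, by have := h.ap i; omega⟩
      rw [hb, Nat.add_sub_cancel, pow_succ, show p i k ^ b * (p k i ^ b * p k i * t) =
        (p i k ^ b * p k i ^ b) * (p k i * t) by ring, h.pw, one_mul]
    rw [e3] at e2
    have e4 := congrArg (fun f => f (Z i)) e2
    simp only [Module.End.mul_apply, LinearMap.smul_apply] at e4
    rw [hZ.2 i hi, map_zero] at e4
    rw [map_smul]
    rcases smul_eq_zero.1 e4.symm with h5 | h5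
    · exact absurd h5 (pow_ne_zero _ (h.p0 k i))
    · rw [h5, smul_zero]

theorem HH_down (h : QSys p a L R) {k : ℕ} (hk : HH p a L R (k + 1)) {ws : Multiset F}
    (hw : Rts F (a k) ws) : HH p a L R k := by
  classical
  have key : ∀ suf : Multiset F, (∀ z ∈ suf, z ≠ 0) → ∀ s : ℕ → F, (∀ i, s i ≠ 0) → ∀ Z : ℕ → E,
      Coc p a L R k s Z → (∀ i < k, Phi (h.LR k k) (pf (p k i) suf) (Z i) = 0) →
      ∃ θ : E, ∀ i < k, Dop (L i) (R i) (s i) θ = Z i := by
    intro suf
    induction suf using Multiset.induction_on with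
    | empty =>
      intro _ s hs Z hZ h1
      refine ⟨0, fun i hi => ?_⟩
      have h2 := h1 i hi
      unfold pf at h2
      rw [Multiset.map_zero, Multiset.prod_zero, map_one] at h2
      rw [map_zero]
      exact h2.symm
    | cons z suf ih =>
      intro hz s hs Z hZ h1
      have hz0 : z ≠ 0 := hz z (Multiset.mem_cons_self z suf)
      obtain ⟨W, hW⟩ := ih (fun w hw => hz w (Multiset.mem_cons_of_mem hw))
        (fun i => p i k * s i) (fun i => mul_ne_zero (h.p0 i k) (hs i))
        (fun i => p i k • Dop (L k) (R k) (p k i * z) (Z i)) (h.Cstep k s Z hZ z) (by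
          intro i hi
          try dsimp only
          have h2 := h1 i hi
          rw [pf_cons, mul_comm, map_mul, Phi_lf, Module.End.mul_apply, mul_comm z] at h2
          rw [map_smul, h2, smul_zero])
      exact h.Bstep hk hw s hs Z hZ z hz0 W hW
  intro s hs Z hZ
  refine key (1 ::ₘ ws) ?_ s hs Z hZ ?_
  · intro z hz
    rcases Multiset.mem_cons.1 hz with rfl | hz
    · exact one_ne_zero
    · rintro rfl
      have := hw.pow hz
      rw [zero_pow (h.ap k).ne'] at this
      exact zero_ne_one this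
  · intro i hi
    rw [pf_cons, one_mul, pf_all hw (h.p0 k i), map_sub, map_pow, map_pow, Phi_x, Phi_c, Phi_y,
      h.La, smul_pow, h.Ra, smul_zero, sub_zero]
    rfl

theorem HH_le (h : QSys p a L R) {n : ℕ} (hn : HH p a L R n)
    (hw : ∀ k < n, ∃ ws : Multiset F, Rts F (a k) ws) (k : ℕ) (hkn : k ≤ n) : HH p a L R k := by
  obtain ⟨m, rfl⟩ := Nat.exists_eq_add_of_le hkn
  clear hkn
  induction m with
  | zero => exact hn
  | succ m ih =>
    obtain ⟨ws, hws⟩ := hw (k + m) (by omega)
    exact ih (h.HH_down (k := k + m) hn hws) (fun j hj => hw j (by omega))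

end QSys

/-- the iterated sums -/
def NN (p : ℕ → ℕ → F) (a : ℕ → ℕ) (L R : ℕ → Module.End F E) : ℕ → (ℕ → F) → Module.End F E
  | 0, _ => 1
  | k + 1, s => Nop (L k) (R k) (a k) (s k) * NN p a L R k (fun i => p k i ^ (a k - 1) * s i)

namespace QSys
variable {p : ℕ → ℕ → F} {a : ℕ → ℕ} {L R : ℕ → Module.End F E}

theorem NN_inv (h : QSys p a L R) (k : ℕ) : ∀ (s : ℕ → F) (e : E), ∀ i < k,
    Dop (L i) (R i) (s i) (NN p a L R k s e) = 0 := by
  induction k with
  | zero => intro s e i hi; omega
  | succ k ih =>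
    intro s e i hi
    unfold NN
    rw [Module.End.mul_apply]
    by_cases hik : i = k
    · subst hik
      exact h.DN i _ _
    · rw [← Module.End.mul_apply, h.comm_N, LinearMap.smul_apply, Module.End.mul_apply,
        ih (fun i => p k i ^ (a k - 1) * s i) e i (by omega), map_zero, smul_zero]

theorem NN_surj (h : QSys p a L R) {n : ℕ} (hn : HH p a L R n)
    (hw : ∀ k < n, ∃ ws : Multiset F, Rts F (a k) ws) (k : ℕ) : k ≤ n → ∀ (s : ℕ → F),
    (∀ i, s i ≠ 0) → ∀ ψ : E, (∀ i < k, Dop (L i) (R i) (s i) ψ = 0) →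
    ∃ φ, NN p a L R k s φ = ψ := by
  induction k with
  | zero => exact fun _ s _ ψ _ => ⟨ψ, rfl⟩
  | succ k ih =>
    intro hkn s hs ψ hψ
    obtain ⟨ws, hws⟩ := hw k (by omega)
    obtain ⟨φ1, h1, h2⟩ := h.Pstep (h.HH_le hn hw (k + 1) hkn) hws s hs ψ hψ
    obtain ⟨φ, hφ⟩ := ih (by omega) (fun i => p k i ^ (a k - 1) * s i)
      (fun i => mul_ne_zero (pow_ne_zero _ (h.p0 k i)) (hs i)) φ1 h1
    refine ⟨φ, ?_⟩
    unfold NN
    rw [Module.End.mul_apply, hφ, h2]

end QSys

theorem NN_nat {E' : Type*} [AddCommGroup E'] [Module F E'] (p : ℕ → ℕ → F) (a : ℕ → ℕ)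
    (L R : ℕ → Module.End F E) (L' R' : ℕ → Module.End F E') (μ : E →ₗ[F] E')
    (hL : ∀ i e, μ (L i e) = L' i (μ e)) (hR : ∀ i e, μ (R i e) = R' i (μ e)) (k : ℕ) :
    ∀ (s : ℕ → F) (e : E), μ (NN p a L R k s e) = NN p a L' R' k s (μ e) := by
  have hLp : ∀ i l e, μ ((L i ^ l) e) = (L' i ^ l) (μ e) := by
    intro i l
    induction l with
    | zero => intro e; rfl
    | succ l ih => intro e; rw [pow_succ, pow_succ, Module.End.mul_apply, Module.End.mul_apply, ih, hL]
  have hRp : ∀ i l e, μ ((R i ^ l) e) = (R' i ^ l) (μ e) := by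
    intro i l
    induction l with
    | zero => intro e; rfl
    | succ l ih => intro e; rw [pow_succ, pow_succ, Module.End.mul_apply, Module.End.mul_apply, ih, hR]
  induction k with
  | zero => exact fun _ _ => rfl
  | succ k ih =>
    intro s e
    unfold NN
    rw [Module.End.mul_apply, Module.End.mul_apply, Nop_apply, Nop_apply, map_sum]
    refine Finset.sum_congr rfl fun l _ => ?_
    rw [map_smul, hLp, hRp, ih]

end Pool.Agent.X317.QCI
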