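import Mathlib

/-!
# Rigid systems of matrices are invariant under rescaling
-/

set_option autoImplicit false
set_option linter.all false

namespace Pool.Agent.X317.QCI

variable {ν : Type*} [Fintype ν] [DecidableEq ν]

/-- cocycles, in matrices -/
def MC {Ω : Type*} [CommRing Ω] (X : ℕ → Matrix ν ν Ω) (p : ℕ → ℕ → Ω) (a : ℕ → ℕ) (n : ℕ)
    (s : ℕ → Ω) (Z : ℕ → Matrix ν ν Ω) : Prop :=
  (∀ i < n, ∀ j < n, X i * Z j - (s i * p i j) • (Z j * X i) =
    p i j • (X j * Z i - (s j * p j i) • (Z i * X j))) ∧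
  ∀ i < n, ∑ l ∈ Finset.range (a i), s i ^ (a i - 1 - l) • (X i ^ l * (Z i * X i ^ (a i - 1 - l))) = 0

/-- all cocycles are coboundaries -/
def MH {Ω : Type*} [CommRing Ω] (X : ℕ → Matrix ν ν Ω) (p : ℕ → ℕ → Ω) (a : ℕ → ℕ) (n : ℕ)
    (s : ℕ → Ω) : Prop :=
  ∀ Z, MC X p a n s Z → ∃ θ, ∀ i < n, X i * θ - s i • (θ * X i) = Z i

/-- the relations -/
structure MR {Ω : Type*} [CommRing Ω] (X : ℕ → Matrix ν ν Ω) (p : ℕ → ℕ → Ω) (a : ℕ → ℕ) : Prop where
  pp : ∀ i j, p i j * p j i = 1
  ap : ∀ i, 0 < a i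
  XX : ∀ i j, X i * X j = p i j • (X j * X i)
  Xa : ∀ i, X i ^ a i = 0

section deform
variable {F : Type*} [Field F] {X : ℕ → Matrix ν ν F} {p : ℕ → ℕ → F} {a : ℕ → ℕ} {n : ℕ}

theorem coc_of (h : MR X p a) (c : ℕ → F) (G G' : Matrix ν ν F)
    (hG : ∀ i < n, G * X i = X i * G + c i • (X i * G'))
    (hm : ∀ i < n, ∀ m, ∃ H, G * X i ^ m = X i ^ m * H) :
    MC X p a n (fun _ => 1) (fun i => c i • (X i * G)) := by
  refine ⟨?_, ?_⟩
  · intro i hi j hj
    try dsimp only
    rw [one_mul, one_mul, smul_sub, smul_smul, h.pp, one_smul]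
    have e1 : (c j • (X j * G)) * X i = c j • (X j * X i * G) + (c j * c i) • (X j * X i * G') := by
      rw [smul_mul_assoc, mul_assoc, hG i hi, mul_add, mul_smul_comm, smul_add, smul_smul,
        ← mul_assoc, ← mul_assoc]
    have e2 : (c i • (X i * G)) * X j = c i • (X i * X j * G) + (c i * c j) • (X i * X j * G') := by
      rw [smul_mul_assoc, mul_assoc, hG j hj, mul_add, mul_smul_comm, smul_add, smul_smul,
        ← mul_assoc, ← mul_assoc]
    rw [e1, e2, mul_smul_comm, mul_smul_comm, ← mul_assoc, ← mul_assoc, h.XX i j]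
    simp only [smul_mul_assoc, smul_add, smul_smul]
    rw [mul_comm (p i j) (c j), mul_comm (p i j) (c i), mul_comm (p i j) (c j * c i),
      mul_comm (c j) (c i)]
    abel
  · intro i hi
    try dsimp only
    apply Finset.sum_eq_zero
    intro l hl
    have hl' := Finset.mem_range.1 hl
    obtain ⟨H, hH⟩ := hm i hi (a i - 1 - l)
    rw [smul_mul_assoc, mul_assoc (X i) G, hH, mul_smul_comm, ← mul_assoc (X i), ← pow_succ',
      ← mul_assoc, ← pow_add, show l + (a i - 1 - l + 1) = a i by omega, h.Xa, zero_mul, smul_zero,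
      smul_zero]

theorem pow_right (c : ℕ → F) (g : ℕ → Matrix ν ν F) (N : ℕ) (h0 : g 0 = 1)
    (h : ∀ k < N, ∀ i < n, g (k + 1) * X i = X i * g (k + 1) + c i • (X i * g k)) (i : ℕ)
    (hi : i < n) (m : ℕ) : ∀ k ≤ N, ∃ H, g k * X i ^ m = X i ^ m * H := by
  induction m with
  | zero =>
    intro k _
    exact ⟨g k, by rw [pow_zero, mul_one, one_mul]⟩
  | succ m ih =>
    intro k hk
    rcases Nat.eq_zero_or_pos k with rfl | hk0
    · exact ⟨1, by rw [h0, mul_one, one_mul]⟩
    · obtain ⟨k, rfl⟩ : ∃ l, k = l + 1 := ⟨k - 1, by omega⟩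
      obtain ⟨H1, h1⟩ := ih (k + 1) hk
      obtain ⟨H2, h2⟩ := ih k (by omega)
      refine ⟨H1 + c i • H2, ?_⟩
      rw [pow_succ', ← mul_assoc, h k (by omega) i hi, add_mul, smul_mul_assoc, mul_assoc, mul_assoc,
        h1, h2, mul_add, mul_smul_comm, mul_assoc, mul_assoc]

theorem step (h : MR X p a) (hH : MH X p a n (fun _ => 1)) (c : ℕ → F) (g : ℕ → Matrix ν ν F)
    (N : ℕ) (h0 : g 0 = 1)
    (hg : ∀ k < N, ∀ i < n, g (k + 1) * X i = X i * g (k + 1) + c i • (X i * g k)) :
    ∃ G, ∀ i < n, G * X i = X i * G + c i • (X i * g N) := by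
  obtain ⟨θ, hθ⟩ := hH _ (coc_of (n := n) h c (g N) (if N = 0 then 0 else g (N - 1)) (by
    intro i hi
    rcases Nat.eq_zero_or_pos N with rfl | hN
    · rw [if_pos rfl, mul_zero, smul_zero, add_zero, h0, mul_one, one_mul]
    · rw [if_neg (by omega)]
      have := hg (N - 1) (by omega) i hi
      rwa [Nat.sub_add_cancel hN] at this)
    (fun i hi m => pow_right c g N h0 hg i hi m N le_rfl))
  refine ⟨-θ, fun i hi => ?_⟩
  have h1 := hθ i hi
  try dsimp only at h1
  rw [one_smul] at h1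
  rw [← h1]
  simp only [neg_mul, mul_neg]
  abel

theorem exists_seq (h : MR X p a) (hH : MH X p a n (fun _ => 1)) (c : ℕ → F) :
    ∃ g : ℕ → Matrix ν ν F, g 0 = 1 ∧
      ∀ k, ∀ i < n, g (k + 1) * X i = X i * g (k + 1) + c i • (X i * g k) := by
  classical
  let P : ℕ → (ℕ → Matrix ν ν F) → Prop := fun N g => g 0 = 1 ∧
    ∀ k < N, ∀ i < n, g (k + 1) * X i = X i * g (k + 1) + c i • (X i * g k)
  have hstep : ∀ N (g : {g // P N g}), ∃ g' : {g // P (N + 1) g}, ∀ k ≤ N, g'.1 k = g.1 k := by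
    rintro N ⟨g, hg0, hg⟩
    obtain ⟨G, hG⟩ := step h hH c g N hg0 hg
    refine ⟨⟨Function.update g (N + 1) G, ?_, ?_⟩, ?_⟩
    · rw [Function.update_of_ne (by omega)]
      exact hg0
    · intro k hk i hi
      rw [Function.update_of_ne (show k ≠ N + 1 by omega)]
      rcases Nat.lt_succ_iff_lt_or_eq.1 hk with h1 | h1
      · rw [Function.update_of_ne (by omega)]
        exact hg k h1 i hi
      · rw [h1, Function.update_self]
        exact hG i hi
    · intro k hk
      show Function.update g (N + 1) G k = g k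
      rw [Function.update_of_ne (by omega)]
  choose nx hnx using hstep
  let S : (N : ℕ) → {g // P N g} := fun N => Nat.rec
    (⟨fun _ => 1, rfl, fun k hk => absurd hk (by omega)⟩ : {g // P 0 g}) (fun N g => nx N g) N
  have hS : ∀ N, S (N + 1) = nx N (S N) := fun N => rfl
  refine ⟨fun k => (S k).1 k, (S 0).2.1, ?_⟩
  intro k i hi
  have h1 := (S (k + 1)).2.2 k (by omega) i hi
  have h2 : (S (k + 1)).1 k = (S k).1 k := by
    rw [hS]
    exact hnx k (S k) k le_rfl
  rw [h2] at h1
  exact h1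

open PowerSeries in
/-- the power series solution -/
theorem exists_ps (h : MR X p a) (hH : MH X p a n (fun _ => 1)) (c : ℕ → F) :
    ∃ g : Matrix ν ν (PowerSeries F), IsUnit g ∧ ∀ i < n,
      g * (X i).map (C (R := F)) = (1 + C (R := F) (c i) * (PowerSeries.X : PowerSeries F)) •
        ((X i).map (C (R := F)) * g) := by
  obtain ⟨g, h0, hg⟩ := exists_seq h hH c
  refine ⟨Matrix.of fun i j => PowerSeries.mk fun k => g k i j, ?_, ?_⟩
  · rw [Matrix.isUnit_iff_isUnit_det, PowerSeries.isUnit_iff_constantCoeff, RingHom.map_det]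
    have h1 : (constantCoeff (R := F)).mapMatrix
        (Matrix.of fun i j => PowerSeries.mk fun k => g k i j) = 1 := by
      ext i j
      rw [RingHom.mapMatrix_apply, Matrix.map_apply, Matrix.of_apply, ← h0,
        ← PowerSeries.coeff_zero_eq_constantCoeff_apply, PowerSeries.coeff_mk]
    rw [h1, Matrix.det_one]
    exact isUnit_one
  · intro i hi
    ext u v k
    rw [Matrix.smul_apply, Matrix.mul_apply, Matrix.mul_apply, map_sum, smul_eq_mul, add_mul, one_mul,
      map_add, map_sum]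
    have e1 : ∀ w, (PowerSeries.coeff k) ((Matrix.of fun i j => PowerSeries.mk fun k => g k i j) u w *
        ((X i).map (C (R := F))) w v) = g k u w * X i w v := by
      intro w
      rw [Matrix.map_apply, Matrix.of_apply, PowerSeries.coeff_mul_C, PowerSeries.coeff_mk]
    have e2 : ∀ w k, (PowerSeries.coeff k) (((X i).map (C (R := F))) u w *
        (Matrix.of fun i j => PowerSeries.mk fun k => g k i j) w v) = X i u w * g k w v := by
      intro w k
      rw [Matrix.map_apply, Matrix.of_apply, PowerSeries.coeff_C_mul, PowerSeries.coeff_mk]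
    rw [Finset.sum_congr rfl fun w _ => e1 w, Finset.sum_congr rfl fun w _ => e2 w k]
    rw [mul_assoc, PowerSeries.coeff_C_mul]
    rcases k with _ | k
    · rw [PowerSeries.coeff_zero_X_mul, mul_zero, add_zero]
      have h3 : g 0 * X i = X i * g 0 := by rw [h0, one_mul, mul_one]
      have h4 := congrFun (congrFun h3 u) v
      rw [Matrix.mul_apply, Matrix.mul_apply] at h4
      exact h4
    · rw [PowerSeries.coeff_succ_X_mul, map_sum, Finset.sum_congr rfl fun w _ => e2 w k]
      have h4 := congrFun (congrFun (hg k i hi) u) v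
      rw [Matrix.add_apply, Matrix.smul_apply, Matrix.mul_apply, Matrix.mul_apply, Matrix.mul_apply,
        smul_eq_mul] at h4
      exact h4

end deform

end Pool.Agent.X317.QCI
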