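import Mathlib
import Pool.Agent.X317.QCI.Deform

/-!
# Base change, and invariance under the torus
-/

set_option autoImplicit false
set_option linter.all false

namespace Pool.Agent.X317.QCI

universe u

theorem amal {Φ L1 L2 : Type u} [Field Φ] [Field L1] [Field L2] (e1 : Φ →+* L1) (e2 : Φ →+* L2) :
    ∃ (Ω : Type u) (_ : CommRing Ω) (_ : Nontrivial Ω) (j1 : L1 →+* Ω) (j2 : L2 →+* Ω),
      ∀ x, j1 (e1 x) = j2 (e2 x) := by
  letI := e1.toAlgebra
  letI := e2.toAlgebra
  refine ⟨TensorProduct Φ L1 L2, inferInstance, inferInstance,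
    (Algebra.TensorProduct.includeLeft (R := Φ) (S := Φ) (A := L1) (B := L2)).toRingHom,
    (Algebra.TensorProduct.includeRight (R := Φ) (A := L1) (B := L2)).toRingHom, ?_⟩
  intro x
  show (Algebra.TensorProduct.includeLeft (R := Φ) (S := Φ) (A := L1) (B := L2)) (algebraMap Φ L1 x) =
    (Algebra.TensorProduct.includeRight (R := Φ) (A := L1) (B := L2)) (algebraMap Φ L2 x)
  rw [AlgHom.commutes, AlgHom.commutes]

open Polynomial in
theorem two_maps (F : Type u) [Field F] : ∃ (Ω : Type u) (_ : CommRing Ω) (_ : Nontrivial Ω)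
    (_ : Algebra F Ω) (f1 f2 : PowerSeries F →+* Ω),
    (∀ c, f1 (PowerSeries.C c) = algebraMap F Ω c) ∧ (∀ c, f2 (PowerSeries.C c) = algebraMap F Ω c) ∧
    f1 PowerSeries.X = f2 PowerSeries.X + 1 := by
  let L := FractionRing (PowerSeries F)
  let Φ := FractionRing F[X]
  let q1 : F[X] →+* L := (algebraMap (PowerSeries F) L).comp (Polynomial.coeToPowerSeries.ringHom)
  have hq1 : Function.Injective q1 :=
    (IsFractionRing.injective (PowerSeries F) L).comp (Polynomial.coe_injective F)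
  let τ : F[X] →+* F[X] := Polynomial.compRingHom (X + C 1)
  have hτ : Function.Injective τ := by
    intro x y hxy
    have h1 : ∀ z : F[X], (τ z).comp (X - C 1) = z := by
      intro z
      show (z.comp (X + C 1)).comp (X - C 1) = z
      rw [comp_assoc]
      simp
    rw [← h1 x, ← h1 y, hxy]
  let q2 : F[X] →+* L := q1.comp τ
  have hq2 : Function.Injective q2 := hq1.comp hτ
  let e1 : Φ →+* L := IsFractionRing.lift hq1
  let e2 : Φ →+* L := IsFractionRing.lift hq2
  obtain ⟨Ω, i1, i2, j1, j2, hj⟩ := amal e1 e2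
  have k1 : ∀ z : F[X], j1 (q1 z) = j2 (q2 z) := by
    intro z
    have h1 := hj (algebraMap F[X] Φ z)
    have h2 : e1 (algebraMap F[X] Φ z) = q1 z := IsFractionRing.lift_algebraMap hq1 z
    have h3 : e2 (algebraMap F[X] Φ z) = q2 z := IsFractionRing.lift_algebraMap hq2 z
    rwa [h2, h3] at h1
  have c1 : ∀ c, q1 (C c) = algebraMap (PowerSeries F) L (PowerSeries.C c) := by
    intro c
    show algebraMap (PowerSeries F) L ((C c : F[X]) : PowerSeries F) = _
    rw [Polynomial.coe_C]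
  have c2 : ∀ c, q2 (C c) = algebraMap (PowerSeries F) L (PowerSeries.C c) := by
    intro c
    show q1 (τ (C c)) = _
    rw [← c1]
    congr 1
    show (C c).comp _ = _
    rw [C_comp]
  have x1 : q1 X = algebraMap (PowerSeries F) L PowerSeries.X := by
    show algebraMap (PowerSeries F) L ((X : F[X]) : PowerSeries F) = _
    rw [Polynomial.coe_X]
  have x2 : q2 X = algebraMap (PowerSeries F) L PowerSeries.X + 1 := by
    show q1 (τ X) = _
    have h1 : τ X = X + C 1 := by
      show X.comp (X + C 1) = _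
      rw [X_comp]
    rw [h1, map_add, x1, c1, map_one, map_one]
  letI : Algebra F Ω := (j1.comp ((algebraMap (PowerSeries F) L).comp
    (PowerSeries.C (R := F)))).toAlgebra
  refine ⟨Ω, i1, i2, inferInstance, j1.comp (algebraMap (PowerSeries F) L),
    j2.comp (algebraMap (PowerSeries F) L), ?_, ?_, ?_⟩
  · intro c
    rfl
  · intro c
    show j2 (algebraMap (PowerSeries F) L (PowerSeries.C c)) =
      j1 (algebraMap (PowerSeries F) L (PowerSeries.C c))
    have h1 := k1 (C c)
    rw [c1, c2] at h1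
    exact h1.symm
  · show j1 (algebraMap (PowerSeries F) L PowerSeries.X) =
      j2 (algebraMap (PowerSeries F) L PowerSeries.X) + 1
    have h1 := k1 X
    rw [x1, x2, map_add, map_one] at h1
    exact h1

section base
variable {ν : Type*} [Fintype ν] [DecidableEq ν]
variable {F : Type*} {Ω : Type*} [Field F] [CommRing Ω] [Algebra F Ω]

theorem map_mulL (A : Matrix ν ν F) (B : Matrix ν ν Ω) (ρ : Ω →ₗ[F] F) :
    ((A.map (algebraMap F Ω)) * B).map ρ = A * (B.map ρ) := by
  ext u v
  rw [Matrix.map_apply, Matrix.mul_apply, Matrix.mul_apply, map_sum]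
  refine Finset.sum_congr rfl fun w _ => ?_
  rw [Matrix.map_apply, Matrix.map_apply, ← Algebra.smul_def, map_smul, smul_eq_mul]

theorem map_mulR (A : Matrix ν ν F) (B : Matrix ν ν Ω) (ρ : Ω →ₗ[F] F) :
    (B * (A.map (algebraMap F Ω))).map ρ = (B.map ρ) * A := by
  ext u v
  rw [Matrix.map_apply, Matrix.mul_apply, Matrix.mul_apply, map_sum]
  refine Finset.sum_congr rfl fun w _ => ?_
  rw [Matrix.map_apply, Matrix.map_apply, mul_comm, ← Algebra.smul_def, map_smul, smul_eq_mul,
    mul_comm]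

theorem map_smulA (c : F) (B : Matrix ν ν Ω) (ρ : Ω →ₗ[F] F) :
    (algebraMap F Ω c • B).map ρ = c • (B.map ρ) := by
  ext u v
  rw [Matrix.map_apply, Matrix.smul_apply, Matrix.smul_apply, Matrix.map_apply, smul_eq_mul,
    ← Algebra.smul_def, map_smul]

theorem map_addA (B C : Matrix ν ν Ω) (ρ : Ω →ₗ[F] F) :
    (B + C).map ρ = B.map ρ + C.map ρ := by
  ext u v
  simp

theorem map_subA (B C : Matrix ν ν Ω) (ρ : Ω →ₗ[F] F) :
    (B - C).map ρ = B.map ρ - C.map ρ := by
  ext u v
  simp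

theorem map_sumA {ι : Type*} (s : Finset ι) (B : ι → Matrix ν ν Ω) (ρ : Ω →ₗ[F] F) :
    (∑ i ∈ s, B i).map ρ = ∑ i ∈ s, (B i).map ρ := by
  ext u v
  rw [Matrix.map_apply, Matrix.sum_apply, Matrix.sum_apply, map_sum]
  rfl

theorem map_powA (A : Matrix ν ν F) (m : ℕ) :
    (A.map (algebraMap F Ω)) ^ m = (A ^ m).map (algebraMap F Ω) := by
  have := map_pow (algebraMap F Ω).mapMatrix A m
  rw [RingHom.mapMatrix_apply, RingHom.mapMatrix_apply] at this
  exact this.symm

theorem MC_map {X : ℕ → Matrix ν ν F} {p : ℕ → ℕ → F} {a : ℕ → ℕ} {n : ℕ} {s : ℕ → F}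
    {Z : ℕ → Matrix ν ν Ω}
    (hZ : MC (fun i => (X i).map (algebraMap F Ω)) (fun i j => algebraMap F Ω (p i j)) a n
      (fun i => algebraMap F Ω (s i)) Z) (ρ : Ω →ₗ[F] F) :
    MC X p a n s (fun i => (Z i).map ρ) := by
  refine ⟨?_, ?_⟩
  · intro i hi j hj
    have h := congrArg (fun M => Matrix.map M ρ) (hZ.1 i hi j hj)
    try dsimp only at h ⊢
    rw [← map_mul, ← map_mul, map_smulA, map_subA, map_subA, map_smulA, map_smulA, map_mulL,
      map_mulL, map_mulR, map_mulR] at h
    exact h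
  · intro i hi
    have h := congrArg (fun M => Matrix.map M ρ) (hZ.2 i hi)
    try dsimp only at h ⊢
    rw [map_sumA] at h
    have h0 : (0 : Matrix ν ν Ω).map ρ = 0 := by
      ext u v
      simp
    rw [h0] at h
    rw [← h]
    refine Finset.sum_congr rfl fun l _ => ?_
    rw [← map_pow, map_smulA, map_powA, map_powA, map_mulL, map_mulR]

theorem ascend {X : ℕ → Matrix ν ν F} {p : ℕ → ℕ → F} {a : ℕ → ℕ} {n : ℕ} {s : ℕ → F}
    (hH : MH X p a n s) :
    MH (fun i => (X i).map (algebraMap F Ω)) (fun i j => algebraMap F Ω (p i j)) a n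
      (fun i => algebraMap F Ω (s i)) := by
  classical
  intro Z hZ
  let b := Module.Basis.ofVectorSpace F Ω
  have h1 : ∀ j, ∃ θ, ∀ i < n, X i * θ - s i • (θ * X i) = (Z i).map (b.coord j) :=
    fun j => hH _ (MC_map hZ (b.coord j))
  choose θ hθ using h1
  let S := (Finset.range n).biUnion fun i => Finset.univ.biUnion fun u : ν =>
    Finset.univ.biUnion fun v : ν => (b.repr (Z i u v)).support
  refine ⟨∑ j ∈ S, (b j) • ((θ j).map (algebraMap F Ω)), fun i hi => ?_⟩
  try dsimp only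
  rw [Finset.mul_sum, Finset.sum_mul, Finset.smul_sum, ← Finset.sum_sub_distrib]
  have h2 : ∀ j ∈ S, (X i).map (algebraMap F Ω) * (b j • (θ j).map (algebraMap F Ω)) -
      algebraMap F Ω (s i) • ((b j • (θ j).map (algebraMap F Ω)) * (X i).map (algebraMap F Ω)) =
      b j • ((Z i).map (b.coord j)).map (algebraMap F Ω) := by
    intro j _
    rw [← hθ j i hi, mul_smul_comm, smul_mul_assoc, smul_comm, ← smul_sub]
    congr 1
    have e1 := (algebraMap F Ω).mapMatrix.map_mul (X i) (θ j)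
    have e2 := (algebraMap F Ω).mapMatrix.map_mul (θ j) (X i)
    simp only [RingHom.mapMatrix_apply] at e1 e2
    rw [← e1, ← e2]
    ext u v
    rw [Matrix.sub_apply, Matrix.smul_apply, Matrix.map_apply, Matrix.map_apply, Matrix.map_apply,
      Matrix.sub_apply, Matrix.smul_apply, map_sub, smul_eq_mul, smul_eq_mul, map_mul]
  rw [Finset.sum_congr rfl h2]
  ext u v
  rw [Matrix.sum_apply]
  have h3 : ∀ j, (b j • ((Z i).map (b.coord j)).map (algebraMap F Ω)) u v =
      (b.repr (Z i u v)) j • b j := by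
    intro j
    rw [Matrix.smul_apply, Matrix.map_apply, Matrix.map_apply, Module.Basis.coord_apply, smul_eq_mul,
      mul_comm, ← Algebra.smul_def]
  rw [Finset.sum_congr rfl fun j _ => h3 j]
  conv_rhs => rw [← b.linearCombination_repr (Z i u v), Finsupp.linearCombination_apply]
  symm
  apply Finsupp.sum_of_support_subset
  · intro j hj
    refine Finset.mem_biUnion.2 ⟨i, Finset.mem_range.2 hi, Finset.mem_biUnion.2 ⟨u, Finset.mem_univ _,
      Finset.mem_biUnion.2 ⟨v, Finset.mem_univ _, hj⟩⟩⟩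
  · intro j _
    exact zero_smul _ _

end base

section torus
variable {ν : Type*} [Fintype ν] [DecidableEq ν]

theorem pow_tw {Ω : Type*} [CommRing Ω] (g x : Matrix ν ν Ω) (t : Ω) (h : g * x = t • (x * g))
    (m : ℕ) : g * x ^ m = t ^ m • (x ^ m * g) := by
  induction m with
  | zero => simp
  | succ m ih =>
    rw [pow_succ, ← mul_assoc, ih, smul_mul_assoc, mul_assoc, h, mul_smul_comm, smul_smul,
      ← mul_assoc, ← pow_succ, ← pow_succ]

/-- **Rigid systems are invariant under rescaling.** -/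
theorem torus {F : Type u} [Field F] {X : ℕ → Matrix ν ν F} {p : ℕ → ℕ → F} {a : ℕ → ℕ} {n : ℕ}
    (h : MR X p a) (hH : MH X p a n (fun _ => 1)) (t : ℕ → F) (ht : ∀ i, t i ≠ 0) :
    MH X p a n t := by
  obtain ⟨Ω, iΩ, iN, iA, f1, f2, hf1, hf2, hf⟩ := two_maps F
  obtain ⟨g1, hu1, hg1⟩ := exists_ps h hH (fun i => t i - 1)
  obtain ⟨g2, hu2, hg2⟩ := exists_ps h hH (fun i => (t i - 1) / t i)
  set XΩ : ℕ → Matrix ν ν Ω := fun i => (X i).map (algebraMap F Ω) with hX
  have m1 : ∀ (f : PowerSeries F →+* Ω) (hf : ∀ c, f (PowerSeries.C c) = algebraMap F Ω c)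
      (g : Matrix ν ν (PowerSeries F)) (c : F) (i : ℕ)
      (hg : g * (X i).map (PowerSeries.C (R := F)) = (1 + PowerSeries.C (R := F) c *
        (PowerSeries.X : PowerSeries F)) • ((X i).map (PowerSeries.C (R := F)) * g)),
      g.map f * XΩ i = (1 + algebraMap F Ω c * f PowerSeries.X) • (XΩ i * g.map f) := by
    intro f hf g c i hg
    have e := congrArg (fun M => Matrix.map M f) hg
    try dsimp only at e
    have e1 : ∀ A B : Matrix ν ν (PowerSeries F), (A * B).map f = A.map f * B.map f := by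
      intro A B
      exact f.mapMatrix.map_mul A B
    have e2 : ((X i).map (PowerSeries.C (R := F))).map f = XΩ i := by
      ext u v
      rw [Matrix.map_apply, Matrix.map_apply, hf]
      rfl
    have e3 : ∀ (z : PowerSeries F) (A : Matrix ν ν (PowerSeries F)),
        (z • A).map f = f z • A.map f := by
      intro z A
      ext u v
      rw [Matrix.map_apply, Matrix.smul_apply, Matrix.smul_apply, Matrix.map_apply, smul_eq_mul,
        smul_eq_mul, map_mul]
    rw [e1, e3, e1, e2, map_add, map_one, map_mul, hf] at e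
    exact e
  have u1 : IsUnit (g1.map f1) := hu1.map f1.mapMatrix
  have u2 : IsUnit (g2.map f2) := hu2.map f2.mapMatrix
  obtain ⟨G1, hG1⟩ := u1
  obtain ⟨G2, hG2⟩ := u2
  have r1 : ∀ i < n, (G1 : Matrix ν ν Ω) * XΩ i =
      (1 + algebraMap F Ω (t i - 1) * f1 PowerSeries.X) • (XΩ i * G1) := by
    intro i hi
    rw [hG1]
    exact m1 f1 hf1 g1 _ i (hg1 i hi)
  have r2 : ∀ i < n, (G2 : Matrix ν ν Ω) * XΩ i =
      (1 + algebraMap F Ω ((t i - 1) / t i) * f2 PowerSeries.X) • (XΩ i * G2) := by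
    intro i hi
    rw [hG2]
    exact m1 f2 hf2 g2 _ i (hg2 i hi)
  have r3 : ∀ i < n, XΩ i * (↑G2⁻¹ : Matrix ν ν Ω) =
      (1 + algebraMap F Ω ((t i - 1) / t i) * f2 PowerSeries.X) • ((↑G2⁻¹ : Matrix ν ν Ω) * XΩ i) := by
    intro i hi
    have e := congrArg (fun M => (↑G2⁻¹ : Matrix ν ν Ω) * M * (↑G2⁻¹ : Matrix ν ν Ω)) (r2 i hi)
    try dsimp only at e
    rw [← mul_assoc, Units.inv_mul, one_mul, mul_smul_comm, smul_mul_assoc, mul_assoc, mul_assoc,
      Units.mul_inv, mul_one] at e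
    exact e
  set g : (Matrix ν ν Ω)ˣ := G2⁻¹ * G1 with hg
  have r4 : ∀ i < n, (g : Matrix ν ν Ω) * XΩ i = algebraMap F Ω (t i) • (XΩ i * g) := by
    intro i hi
    rw [hg, Units.val_mul, mul_assoc, r1 i hi, ← mul_assoc (XΩ i), r3 i hi, mul_smul_comm,
      smul_mul_assoc, smul_smul, ← mul_assoc]
    congr 1
    have e : algebraMap F Ω (t i) * algebraMap F Ω ((t i - 1) / t i) = algebraMap F Ω (t i) - 1 := by
      rw [← map_mul, mul_div_cancel₀ _ (ht i), map_sub, map_one]
    rw [hf, map_sub, map_one]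
    linear_combination (-(f2 PowerSeries.X)) * e
  have r5 : ∀ i < n, XΩ i * (↑g⁻¹ : Matrix ν ν Ω) =
      algebraMap F Ω (t i) • ((↑g⁻¹ : Matrix ν ν Ω) * XΩ i) := by
    intro i hi
    have e := congrArg (fun M => (↑g⁻¹ : Matrix ν ν Ω) * M * (↑g⁻¹ : Matrix ν ν Ω)) (r4 i hi)
    try dsimp only at e
    rw [← mul_assoc, Units.inv_mul, one_mul, mul_smul_comm, smul_mul_assoc, mul_assoc, mul_assoc,
      Units.mul_inv, mul_one] at e
    exact e
  intro Z hZ
  have hH' : MH XΩ (fun i j => algebraMap F Ω (p i j)) a n (fun i => algebraMap F Ω 1) :=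
    ascend (Ω := Ω) hH
  have mm : ∀ A B : Matrix ν ν F, (A * B).map (algebraMap F Ω) =
      A.map (algebraMap F Ω) * B.map (algebraMap F Ω) := by
    intro A B
    exact (algebraMap F Ω).mapMatrix.map_mul A B
  have ms : ∀ (c : F) (A : Matrix ν ν F), (c • A).map (algebraMap F Ω) =
      algebraMap F Ω c • A.map (algebraMap F Ω) := by
    intro c A
    ext u v
    rw [Matrix.map_apply, Matrix.smul_apply, Matrix.smul_apply, Matrix.map_apply, smul_eq_mul,
      smul_eq_mul, map_mul]
  have msub : ∀ (A B : Matrix ν ν F), (A - B).map (algebraMap F Ω) =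
      A.map (algebraMap F Ω) - B.map (algebraMap F Ω) := by
    intro A B
    ext u v
    simp
  obtain ⟨θ', hθ'⟩ := hH' (fun i => (Z i).map (algebraMap F Ω) * g) ⟨by
    intro i hi j hj
    try dsimp only
    have e := congrArg (fun M => Matrix.map M (algebraMap F Ω) * (g : Matrix ν ν Ω)) (hZ.1 i hi j hj)
    try dsimp only at e
    rw [msub, ms, ms, msub, ms, mm, mm, mm, mm, smul_mul_assoc, sub_mul, sub_mul, smul_mul_assoc,
      smul_mul_assoc] at e
    rw [map_one, one_mul, one_mul, mul_assoc ((Z j).map _) (g : Matrix ν ν Ω), r4 i hi,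
      mul_assoc ((Z i).map _) (g : Matrix ν ν Ω), r4 j hj, mul_smul_comm, mul_smul_comm, smul_smul,
      smul_smul, mul_comm (algebraMap F Ω (p i j)), mul_comm (algebraMap F Ω (p j i)), ← map_mul,
      ← map_mul, ← mul_assoc, ← mul_assoc, ← mul_assoc, ← mul_assoc]
    exact e, by
    intro i hi
    try dsimp only
    have e := congrArg (fun M => Matrix.map M (algebraMap F Ω) * (g : Matrix ν ν Ω)) (hZ.2 i hi)
    try dsimp only at e
    have h0 : (0 : Matrix ν ν F).map (algebraMap F Ω) = 0 := by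
      ext u v
      simp
    have hs : ∀ (s : Finset ℕ) (B : ℕ → Matrix ν ν F), (∑ l ∈ s, B l).map (algebraMap F Ω) =
        ∑ l ∈ s, (B l).map (algebraMap F Ω) := by
      intro s B
      exact map_sum (algebraMap F Ω).mapMatrix B s
    rw [h0, zero_mul, hs, Finset.sum_mul] at e
    rw [← e]
    refine Finset.sum_congr rfl fun l _ => ?_
    rw [ms, mm, mm, map_one, one_pow, one_smul, mul_assoc ((Z i).map _) (g : Matrix ν ν Ω),
      pow_tw _ _ _ (r4 i hi), mul_smul_comm, mul_smul_comm, ← map_pow, ← map_powA, ← map_powA,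
      smul_mul_assoc, mul_assoc, mul_assoc]⟩
  obtain ⟨ρ, hρ⟩ := LinearMap.exists_leftInverse_of_injective (Algebra.linearMap F Ω)
    (LinearMap.ker_eq_bot.2 (algebraMap F Ω).injective)
  have hρ' : ∀ c, ρ (algebraMap F Ω c) = c := fun c => congrArg (fun f => f c) hρ
  refine ⟨(θ' * (↑g⁻¹ : Matrix ν ν Ω)).map ρ, fun i hi => ?_⟩
  rw [← map_mulL, ← map_mulR, ← map_smulA, ← map_subA]
  have e1 : (X i).map (algebraMap F Ω) * (θ' * (↑g⁻¹ : Matrix ν ν Ω)) - algebraMap F Ω (t i) •
      (θ' * (↑g⁻¹ : Matrix ν ν Ω) * (X i).map (algebraMap F Ω)) = (Z i).map (algebraMap F Ω) := by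
    have h1 := congrArg (fun M => M * (↑g⁻¹ : Matrix ν ν Ω)) (hθ' i hi)
    try dsimp only at h1
    rw [mul_assoc ((Z i).map _), Units.mul_inv, mul_one, map_one, one_smul, sub_mul] at h1
    rw [← h1, mul_assoc θ', ← mul_smul_comm, ← r5 i hi, ← mul_assoc, ← mul_assoc]
  rw [e1]
  ext u v
  rw [Matrix.map_apply, Matrix.map_apply, hρ']

end torus

end Pool.Agent.X317.QCI
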