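import Mathlib
import Pool.Agent.X317.QCI.Sys
import Pool.Agent.X317.QCI.Transfer

/-!
# The criterion for matrices
-/

set_option autoImplicit false
set_option linter.all false

namespace Pool.Agent.X317.QCI

universe u

theorem exists_rts (F : Type*) [Field F] [IsAlgClosed F] (a : ℕ) (ha : 0 < a) :
    ∃ ws : Multiset F, Rts F a ws := by
  classical
  have hm : (Polynomial.X ^ a - 1 : Polynomial F).Monic := by
    have := Polynomial.monic_X_pow_sub_C (1 : F) ha.ne'
    simpa using this
  have hs : (Polynomial.X ^ a - 1 : Polynomial F).Splits := IsAlgClosed.splits _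
  have h1 := hs.eq_prod_roots_of_monic hm
  have h2 : (1 : F) ∈ (Polynomial.X ^ a - 1 : Polynomial F).roots := by
    rw [Polynomial.mem_roots hm.ne_zero]
    simp
  refine ⟨(Polynomial.X ^ a - 1 : Polynomial F).roots.erase 1, ⟨?_⟩⟩
  rw [Multiset.cons_erase h2]
  exact h1.symm

theorem NN_nat' {K F E E' : Type*} [Field K] [Field F] [AddCommGroup E] [Module F E]
    [AddCommGroup E'] [Module K E'] (σ : K →+* F) (p : ℕ → ℕ → K) (a : ℕ → ℕ)
    (L R : ℕ → Module.End F E) (L' R' : ℕ → Module.End K E') (μ : E →+ E')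
    (hμ : ∀ c e, μ (σ c • e) = c • μ e)
    (hL : ∀ i e, μ (L i e) = L' i (μ e)) (hR : ∀ i e, μ (R i e) = R' i (μ e)) (k : ℕ) :
    ∀ (s : ℕ → K) (e : E), μ (NN (fun i j => σ (p i j)) a L R k (fun i => σ (s i)) e) =
      NN p a L' R' k s (μ e) := by
  have hLp : ∀ i l e, μ ((L i ^ l) e) = (L' i ^ l) (μ e) := by
    intro i l
    induction l with
    | zero => intro e; rfl
    | succ l ih => intro e; rw [pow_succ, pow_succ, Module.End.mul_apply, Module.End.mul_apply, ih, hL]
  have hRp : ∀ i l e, μ ((R i ^ l) e) = (R' i ^ l) (μ e) := by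
    intro i l
    induction l with
    | zero => intro e; rfl
    | succ l ih => intro e; rw [pow_succ, pow_succ, Module.End.mul_apply, Module.End.mul_apply, ih, hR]
  induction k with
  | zero => exact fun _ _ => rfl
  | succ k ih =>
    intro s e
    unfold NN
    rw [Module.End.mul_apply, Module.End.mul_apply, Nop_apply, Nop_apply, map_sum]
    refine Finset.sum_congr rfl fun l _ => ?_
    rw [← map_pow, hμ, hLp, hRp]
    congr 3
    have := ih (fun i => p k i ^ (a k - 1) * s i) e
    simp only [map_mul, map_pow] at this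
    exact this

section mat
variable {ν : Type*} [Fintype ν] [DecidableEq ν] {F : Type u} [Field F]

/-- the system of the matrices `X` -/
theorem qsys_mat {X : ℕ → Matrix ν ν F} {p : ℕ → ℕ → F} {a : ℕ → ℕ} (h : MR X p a)
    (hpi : ∀ i, p i i = 1) :
    QSys p a (fun i => LinearMap.mulLeft F (X i)) (fun i => LinearMap.mulRight F (X i)) where
  pp := h.pp
  pi := hpi
  ap := h.ap
  LL := by
    intro i j
    ext1 e
    rw [LinearMap.smul_apply, Module.End.mul_apply, Module.End.mul_apply]
    simp only [LinearMap.mulLeft_apply]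
    rw [← mul_assoc, h.XX i j, smul_mul_assoc, mul_assoc]
  RR := by
    intro i j
    ext1 e
    rw [LinearMap.smul_apply, Module.End.mul_apply, Module.End.mul_apply]
    simp only [LinearMap.mulRight_apply]
    rw [mul_assoc, h.XX j i, mul_smul_comm, mul_assoc]
  LR := by
    intro i j
    ext1 e
    rw [Module.End.mul_apply, Module.End.mul_apply]
    simp only [LinearMap.mulRight_apply, LinearMap.mulLeft_apply]
    rw [mul_assoc]
  La := by
    intro i
    rw [LinearMap.pow_mulLeft, h.Xa]
    ext1 e
    simp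
  Ra := by
    intro i
    rw [LinearMap.pow_mulRight, h.Xa]
    ext1 e
    simp

theorem Dop_mat (x θ : Matrix ν ν F) (s : F) :
    Dop (LinearMap.mulLeft F x) (LinearMap.mulRight F x) s θ = x * θ - s • (θ * x) := rfl

theorem hh_mat {X : ℕ → Matrix ν ν F} {p : ℕ → ℕ → F} {a : ℕ → ℕ} {n : ℕ} (h : MR X p a)
    (hH : MH X p a n (fun _ => 1)) :
    QSys.HH p a (fun i => LinearMap.mulLeft F (X i)) (fun i => LinearMap.mulRight F (X i)) n := by
  intro s hs Z hZ
  obtain ⟨θ, hθ⟩ := torus h hH s hs Z ⟨by
    intro i hi j hj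
    exact hZ.1 i hi j hj, by
    intro i hi
    have h1 := hZ.2 i hi
    rw [Nop_apply] at h1
    rw [← h1]
    refine Finset.sum_congr rfl fun l _ => ?_
    rw [LinearMap.pow_mulLeft, LinearMap.pow_mulRight]
    rfl⟩
  exact ⟨θ, fun i hi => hθ i hi⟩

end mat

/-- **Criterion.** -/
theorem crit {ν : Type*} [Fintype ν] [DecidableEq ν] {K : Type u} [Field K]
    {X : ℕ → Matrix ν ν K} {p : ℕ → ℕ → K} {a : ℕ → ℕ} {n : ℕ} (h : MR X p a)
    (hpi : ∀ i, p i i = 1) (hH : MH X p a n (fun _ => 1)) :
    ∃ φ : Matrix ν ν K, NN p a (fun i => LinearMap.mulLeft K (X i))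
      (fun i => LinearMap.mulRight K (X i)) n (fun _ => 1) φ = 1 := by
  let F := AlgebraicClosure K
  have hF : MH (fun i => (X i).map (algebraMap K F)) (fun i j => algebraMap K F (p i j)) a n
      (fun i => algebraMap K F 1) := ascend (Ω := F) hH
  simp only [map_one] at hF
  have hR : MR (fun i => (X i).map (algebraMap K F)) (fun i j => algebraMap K F (p i j)) a := by
    refine ⟨?_, h.ap, ?_, ?_⟩
    · intro i j
      try dsimp only
      rw [← map_mul, h.pp, map_one]
    · intro i j
      try dsimp only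
      have e1 := (algebraMap K F).mapMatrix.map_mul (X i) (X j)
      have e2 := (algebraMap K F).mapMatrix.map_mul (X j) (X i)
      simp only [RingHom.mapMatrix_apply] at e1 e2
      rw [← e1, ← e2, h.XX i j]
      ext u v
      rw [Matrix.map_apply, Matrix.smul_apply, Matrix.smul_apply, Matrix.map_apply, smul_eq_mul,
        smul_eq_mul, map_mul]
    · intro i
      try dsimp only
      rw [map_powA, h.Xa]
      ext u v
      simp
  have hq := qsys_mat hR (fun i => by rw [hpi, map_one])
  obtain ⟨φ, hφ⟩ := hq.NN_surj (hh_mat hR hF) (fun k _ => exists_rts F (a k) (h.ap k)) n le_rfl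
    (fun _ => 1) (fun _ => one_ne_zero) 1 (by
      intro i _
      rw [Dop_mat, one_smul, mul_one, one_mul, sub_self])
  obtain ⟨ρ, hρ⟩ := LinearMap.exists_leftInverse_of_injective (Algebra.linearMap K F)
    (LinearMap.ker_eq_bot.2 (algebraMap K F).injective)
  have hρ' : ∀ c, ρ (algebraMap K F c) = c := fun c => congrArg (fun f => f c) hρ
  refine ⟨φ.map ρ, ?_⟩
  let μ : Matrix ν ν F →+ Matrix ν ν K :=
    { toFun := fun M => M.map ρ
      map_zero' := by ext u v; simp
      map_add' := fun A B => map_addA A B ρ }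
  have key := NN_nat' (algebraMap K F) p a
    (fun i => LinearMap.mulLeft F ((X i).map (algebraMap K F)))
    (fun i => LinearMap.mulRight F ((X i).map (algebraMap K F)))
    (fun i => LinearMap.mulLeft K (X i)) (fun i => LinearMap.mulRight K (X i)) μ
    (fun c e => map_smulA c e ρ) (fun i e => map_mulL (X i) e ρ) (fun i e => map_mulR (X i) e ρ) n
    (fun _ => 1) φ
  simp only [map_one] at key
  have e3 : NN (fun i j => algebraMap K F (p i j)) a
    (fun i => LinearMap.mulLeft F ((X i).map (algebraMap K F)))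
    (fun i => LinearMap.mulRight F ((X i).map (algebraMap K F))) n (fun _ => 1) φ = 1 := hφ
  rw [e3] at key
  have e4 : μ φ = φ.map ρ := rfl
  rw [e4] at key
  rw [← key]
  show (1 : Matrix ν ν F).map ρ = 1
  ext u v
  rw [Matrix.map_apply, Matrix.one_apply, Matrix.one_apply]
  split_ifs
  · rw [← map_one (algebraMap K F), hρ']
  · rw [map_zero]

end Pool.Agent.X317.QCI
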