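import Mathlib
import Pool.Agent.X317.QCI.Crit

/-!
# Quantum complete intersections
-/

set_option autoImplicit false
set_option linter.all false

namespace Pool.Agent.X317.QCI

universe u

/-- generators, relations and the universal property -/
structure IsQ (K : Type u) [Field K] {R : Type u} [Ring R] [Algebra K R] {n : ℕ} (a : Fin n → ℕ)
    (q : Fin n → Fin n → K) (y : Fin n → R) : Prop where
  ap : ∀ i, 0 < a i
  q0 : ∀ i j, j < i → q i j ≠ 0
  pow : ∀ i, y i ^ a i = 0
  comm : ∀ i j, j < i → y j * y i + q i j • (y i * y j) = 0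
  gen : Algebra.adjoin K (Set.range y) = ⊤
  univ : ∀ (B : Type u) [Ring B] [Algebra K B] (b : Fin n → B), (∀ i, b i ^ a i = 0) →
    (∀ i j, j < i → b j * b i + q i j • (b i * b j) = 0) → ∃ f : R →ₐ[K] B, ∀ i, f (y i) = b i

section
variable {K : Type u} [Field K] {n : ℕ} (a : Fin n → ℕ) (q : Fin n → Fin n → K)

/-- extended exponents -/
def aa (i : ℕ) : ℕ := if h : i < n then a ⟨i, h⟩ else 1

/-- extended commutation coefficients -/
noncomputable def qq (i j : ℕ) : K :=
  if h : i < j ∧ j < n then - q ⟨j, h.2⟩ ⟨i, h.1.trans h.2⟩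
  else if h : j < i ∧ i < n then (- q ⟨i, h.2⟩ ⟨j, h.1.trans h.2⟩)⁻¹ else 1

theorem qq_lt {i j : ℕ} (hij : i < j) (hj : j < n) :
    qq q i j = - q ⟨j, hj⟩ ⟨i, hij.trans hj⟩ := by
  unfold qq
  rw [dif_pos ⟨hij, hj⟩]

theorem qq_gt {i j : ℕ} (hij : i < j) (hj : j < n) :
    qq q j i = (- q ⟨j, hj⟩ ⟨i, hij.trans hj⟩)⁻¹ := by
  unfold qq
  rw [dif_neg (by omega), dif_pos ⟨hij, hj⟩]

theorem qq_self (i : ℕ) : qq q i i = 1 := by
  unfold qq
  rw [dif_neg (by omega), dif_neg (by omega)]

theorem qq_big {i j : ℕ} (h : n ≤ i ∨ n ≤ j) : qq q i j = 1 := by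
  unfold qq
  rw [dif_neg (by omega), dif_neg (by omega)]

theorem qq_mul (hq : ∀ i j, j < i → q i j ≠ 0) (i j : ℕ) : qq q i j * qq q j i = 1 := by
  by_cases hi : i < n
  · by_cases hj : j < n
    · rcases lt_trichotomy i j with h | h | h
      · rw [qq_lt q h hj, qq_gt q h hj]
        exact mul_inv_cancel₀ (neg_ne_zero.2 (hq _ _ h))
      · rw [h, qq_self, one_mul]
      · rw [qq_lt q h hi, qq_gt q h hi]
        exact inv_mul_cancel₀ (neg_ne_zero.2 (hq _ _ h))
    · rw [qq_big q (Or.inr (not_lt.1 hj)), qq_big q (Or.inl (not_lt.1 hj)), one_mul]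
  · rw [qq_big q (Or.inl (not_lt.1 hi)), qq_big q (Or.inr (not_lt.1 hi)), one_mul]

/-- relations in any algebra, extended -/
theorem rel_ext {B : Type*} [Ring B] [Algebra K B] (hq : ∀ i j, j < i → q i j ≠ 0) (b : Fin n → B)
    (hb : ∀ i j, j < i → b j * b i + q i j • (b i * b j) = 0) (i j : ℕ) :
    (if h : i < n then b ⟨i, h⟩ else 0) * (if h : j < n then b ⟨j, h⟩ else 0) =
      qq q i j • ((if h : j < n then b ⟨j, h⟩ else 0) * (if h : i < n then b ⟨i, h⟩ else 0)) := by
  by_cases hi : i < n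
  · by_cases hj : j < n
    · rw [dif_pos hi, dif_pos hj]
      rcases lt_trichotomy i j with h | h | h
      · rw [qq_lt q h hj, neg_smul]
        exact eq_neg_of_add_eq_zero_left (hb ⟨j, hj⟩ ⟨i, hi⟩ h)
      · subst h
        rw [qq_self, one_smul]
      · rw [qq_gt q h hi]
        have h1 : b ⟨j, hj⟩ * b ⟨i, hi⟩ = (- q ⟨i, hi⟩ ⟨j, hj⟩) • (b ⟨i, hi⟩ * b ⟨j, hj⟩) := by
          rw [neg_smul]
          exact eq_neg_of_add_eq_zero_left (hb ⟨i, hi⟩ ⟨j, hj⟩ h)
        rw [h1, smul_smul, inv_mul_cancel₀ (neg_ne_zero.2 (hq _ _ h)), one_smul]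
    · rw [dif_neg hj, mul_zero, zero_mul, smul_zero]
  · rw [dif_neg hi, mul_zero, zero_mul, smul_zero]

end

section fin
variable {K : Type u} [Field K] {R : Type u} [Ring R] [Algebra K R] {n : ℕ} {a : Fin n → ℕ}
  {q : Fin n → Fin n → K} {y : Fin n → R}

theorem IsQ.swap (h : IsQ K a q y) (i j : Fin n) : ∃ c : K, y i * y j = c • (y j * y i) := by
  have h1 := rel_ext q h.q0 y h.comm i j
  rw [dif_pos i.2, dif_pos j.2] at h1
  exact ⟨_, h1⟩

theorem IsQ.perm (h : IsQ K a q y) {l l' : List (Fin n)} (hl : l.Perm l') :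
    ∃ c : K, (l.map y).prod = c • (l'.map y).prod := by
  induction hl with
  | nil => exact ⟨1, by rw [one_smul]⟩
  | cons x _ ih =>
    obtain ⟨c, hc⟩ := ih
    refine ⟨c, ?_⟩
    rw [List.map_cons, List.prod_cons, List.map_cons, List.prod_cons, hc, mul_smul_comm]
  | swap x z l =>
    obtain ⟨c, hc⟩ := h.swap z x
    refine ⟨c, ?_⟩
    rw [List.map_cons, List.prod_cons, List.map_cons, List.prod_cons, List.map_cons, List.prod_cons,
      List.map_cons, List.prod_cons, ← mul_assoc, hc, smul_mul_assoc, mul_assoc]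
  | trans _ _ ih1 ih2 =>
    obtain ⟨c, hc⟩ := ih1
    obtain ⟨d, hd⟩ := ih2
    exact ⟨c * d, by rw [hc, hd, smul_smul]⟩

theorem IsQ.long (h : IsQ K a q y) (l : List (Fin n)) (hl : ∑ i, a i < l.length) :
    (l.map y).prod = 0 := by
  classical
  have h1 : ∃ i, a i ≤ l.count i := by
    by_contra h2
    push Not at h2
    have h3 : l.length = ∑ i, l.count i := by
      have := Multiset.sum_count_eq_card (s := Finset.univ) (m := (l : Multiset (Fin n)))
        (fun a _ => Finset.mem_univ a)
      simpa using this.symm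
    have h4 : ∑ i, l.count i ≤ ∑ i, a i := Finset.sum_le_sum fun i _ => (h2 i).le
    omega
  obtain ⟨i, hi⟩ := h1
  have h2 : (List.replicate (a i) i).Subperm l := by
    rw [List.subperm_iff_count]
    intro j
    rw [List.count_replicate]
    split_ifs with hij
    · have : i = j := by simpa using hij
      rwa [← this]
    · exact Nat.zero_le _
  obtain ⟨l0, hp, hs⟩ := h2
  obtain ⟨l', hl'⟩ := hs.exists_perm_append
  obtain ⟨c, hc⟩ := h.perm (hl'.trans (hp.append_right l'))
  rw [hc, List.map_append, List.prod_append, List.map_replicate, List.prod_replicate, h.pow, zero_mul,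
    smul_zero]

theorem IsQ.finite (h : IsQ K a q y) : Module.Finite K R := by
  classical
  have h1 : (⊤ : Submodule K R) = Submodule.span K
      ((fun l : List (Fin n) => (l.map y).prod) '' {l | l.length ≤ ∑ i, a i}) := by
    symm
    rw [eq_top_iff]
    have h2 : (⊤ : Submodule K R) = Subalgebra.toSubmodule (Algebra.adjoin K (Set.range y)) := by
      rw [h.gen]
      rfl
    rw [h2, Algebra.adjoin_eq_span, Submodule.span_le]
    intro z hz
    obtain ⟨l, hl, rfl⟩ := Submonoid.exists_list_of_mem_closure hz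
    have h3 : ∃ l' : List (Fin n), l = l'.map y := by
      clear hz
      induction l with
      | nil => exact ⟨[], rfl⟩
      | cons x l ih =>
        obtain ⟨i, hi⟩ := hl x (List.mem_cons_self)
        obtain ⟨l', hl'⟩ := ih (fun z hz => hl z (List.mem_cons_of_mem _ hz))
        exact ⟨i :: l', by rw [List.map_cons, hi, hl']⟩
    obtain ⟨l', rfl⟩ := h3
    by_cases h4 : l'.length ≤ ∑ i, a i
    · exact Submodule.subset_span ⟨l', h4, rfl⟩
    · rw [h.long l' (not_le.1 h4)]
      exact Submodule.zero_mem _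
  refine ⟨?_⟩
  rw [h1]
  exact Submodule.fg_span ((List.finite_length_le (Fin n) _).image _)

end fin

section modules
variable {K : Type u} [Field K] {R : Type u} [Ring R] [Algebra K R] {n : ℕ} {a : Fin n → ℕ}
  {q : Fin n → Fin n → K} {y : Fin n → R}

/-- the operator of a generator -/
noncomputable def opr (K : Type u) [Field K] {R : Type u} [Ring R] [Algebra K R] {n : ℕ}
    (y : Fin n → R) (P : Type u) [AddCommGroup P] [Module K P] [Module R P] [IsScalarTower K R P]
    (i : ℕ) : Module.End K P :=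
  if h : i < n then Algebra.lsmul K K P (y ⟨i, h⟩) else 0

theorem opr_lt (P : Type u) [AddCommGroup P] [Module K P] [Module R P] [IsScalarTower K R P]
    {i : ℕ} (h : i < n) (m : P) : opr K y P i m = y ⟨i, h⟩ • m := by
  unfold opr
  rw [dif_pos h]
  rfl

theorem IsQ.rel_opr (h : IsQ K a q y) (P : Type u) [AddCommGroup P] [Module K P] [Module R P]
    [IsScalarTower K R P] (i j : ℕ) :
    opr K y P i * opr K y P j = qq q i j • (opr K y P j * opr K y P i) := by
  refine rel_ext q h.q0 (fun i => Algebra.lsmul K K P (y i)) ?_ i j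
  intro i j hij
  try dsimp only
  rw [← map_mul, ← map_mul, ← map_smul, ← map_add, h.comm i j hij, map_zero]

theorem IsQ.pow_opr (h : IsQ K a q y) (P : Type u) [AddCommGroup P] [Module K P] [Module R P]
    [IsScalarTower K R P] (i : ℕ) : opr K y P i ^ aa a i = 0 := by
  unfold opr aa
  by_cases hi : i < n
  · rw [dif_pos hi, dif_pos hi, ← map_pow, h.pow, map_zero]
  · rw [dif_neg hi, dif_neg hi, pow_one]

theorem aa_pos (h : ∀ i, 0 < a i) (i : ℕ) : 0 < aa a i := by
  unfold aa
  split_ifs
  · exact h _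
  · exact one_pos

/-- `R`-linearity is tested on the generators -/
theorem IsQ.linear (h : IsQ K a q y) {P Q : Type u} [AddCommGroup P] [Module K P] [Module R P]
    [IsScalarTower K R P] [AddCommGroup Q] [Module K Q] [Module R Q] [IsScalarTower K R Q]
    (f : P →ₗ[K] Q) (hf : ∀ i m, f (y i • m) = y i • f m) (r : R) (m : P) :
    f (r • m) = r • f m := by
  have hr : r ∈ Algebra.adjoin K (Set.range y) := by
    rw [h.gen]
    exact Algebra.mem_top
  induction hr using Algebra.adjoin_induction generalizing m with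
  | mem x hx =>
    obtain ⟨i, rfl⟩ := hx
    exact hf i m
  | algebraMap c =>
    rw [algebraMap_smul, algebraMap_smul, map_smul]
  | add x z _ _ hx hz =>
    rw [add_smul, map_add, hx, hz, add_smul]
  | mul x z _ _ hx hz =>
    rw [mul_smul, hx, hz, mul_smul]

/-- left composition -/
def lc (K : Type u) [Field K] {P Q : Type u} [AddCommGroup P] [Module K P] [AddCommGroup Q]
    [Module K Q] (g : Module.End K Q) : Module.End K (P →ₗ[K] Q) where
  toFun e := g ∘ₗ e
  map_add' e e' := LinearMap.comp_add _ _ _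
  map_smul' c e := LinearMap.comp_smul _ _ _

/-- right composition -/
def rc (K : Type u) [Field K] {P Q : Type u} [AddCommGroup P] [Module K P] [AddCommGroup Q]
    [Module K Q] (g : Module.End K P) : Module.End K (P →ₗ[K] Q) where
  toFun e := e ∘ₗ g
  map_add' e e' := LinearMap.add_comp _ _ _
  map_smul' c e := LinearMap.smul_comp _ _ _

theorem lc_pow {P Q : Type u} [AddCommGroup P] [Module K P] [AddCommGroup Q]
    [Module K Q] (g : Module.End K Q) (m : ℕ) :
    (lc K g : Module.End K (P →ₗ[K] Q)) ^ m = lc K (g ^ m) := by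
  induction m with
  | zero => rfl
  | succ m ih =>
    rw [pow_succ, ih, pow_succ]
    rfl

theorem rc_pow {P Q : Type u} [AddCommGroup P] [Module K P] [AddCommGroup Q]
    [Module K Q] (g : Module.End K P) (m : ℕ) :
    (rc K g : Module.End K (P →ₗ[K] Q)) ^ m = rc K (g ^ m) := by
  induction m with
  | zero => rfl
  | succ m ih =>
    rw [pow_succ, ih, pow_succ']
    rfl

theorem IsQ.qsys (h : IsQ K a q y) (P Q : Type u) [AddCommGroup P] [Module K P] [Module R P]
    [IsScalarTower K R P] [AddCommGroup Q] [Module K Q] [Module R Q] [IsScalarTower K R Q] :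
    QSys (qq q) (aa a) (fun i => (lc K (opr K y Q i) : Module.End K (P →ₗ[K] Q)))
      (fun i => rc K (opr K y P i)) where
  pp := qq_mul q h.q0
  pi := qq_self q
  ap := aa_pos h.ap
  LL := by
    intro i j
    ext1 e
    show (opr K y Q i * opr K y Q j) ∘ₗ e = qq q i j • ((opr K y Q j * opr K y Q i) ∘ₗ e)
    rw [h.rel_opr Q i j, LinearMap.smul_comp]
  RR := by
    intro i j
    ext1 e
    show e ∘ₗ (opr K y P j * opr K y P i) = qq q j i • (e ∘ₗ (opr K y P i * opr K y P j))
    rw [h.rel_opr P j i, LinearMap.comp_smul]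
  LR := fun i j => rfl
  La := by
    intro i
    try dsimp only
    rw [lc_pow, h.pow_opr]
    rfl
  Ra := by
    intro i
    try dsimp only
    rw [rc_pow, h.pow_opr]
    ext1 e
    exact LinearMap.comp_zero e

/-- from a solution of `NN φ = 1` to a projective module -/
theorem IsQ.proj (h : IsQ K a q y) (M : Type u) [AddCommGroup M] [Module K M] [Module R M]
    [IsScalarTower K R M] (φ : M →ₗ[K] M)
    (hφ : NN (qq q) (aa a) (fun i => (lc K (opr K y M i) : Module.End K (M →ₗ[K] M)))
      (fun i => rc K (opr K y M i)) n (fun _ => 1) φ = LinearMap.id) : Module.Projective R M := by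
  rw [Module.projective_def]
  let μ : (M →₀ R) →ₗ[K] M := (Finsupp.linearCombination R (id : M → M)).restrictScalars K
  have hμ : Function.Surjective μ := by
    intro m
    refine ⟨Finsupp.single m 1, ?_⟩
    show Finsupp.linearCombination R id (Finsupp.single m 1) = m
    rw [Finsupp.linearCombination_single, one_smul]
    rfl
  obtain ⟨s0, hs0⟩ := μ.exists_rightInverse_of_surjective (LinearMap.range_eq_top.2 hμ)
  have hμy : ∀ i w, μ (opr K y (M →₀ R) i w) = opr K y M i (μ w) := by
    intro i w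
    by_cases hi : i < n
    · rw [opr_lt _ hi, opr_lt _ hi]
      exact map_smul (Finsupp.linearCombination R (id : M → M)) _ _
    · unfold opr
      rw [dif_neg hi, dif_neg hi]
      exact map_zero _
  let T : (M →ₗ[K] (M →₀ R)) →ₗ[K] (M →ₗ[K] M) :=
    { toFun := fun e => μ ∘ₗ e
      map_add' := fun e e' => LinearMap.comp_add _ _ _
      map_smul' := fun c e => LinearMap.comp_smul _ _ _ }
  have key := NN_nat (qq q) (aa a)
    (fun i => (lc K (opr K y (M →₀ R) i) : Module.End K (M →ₗ[K] (M →₀ R))))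
    (fun i => rc K (opr K y M i))
    (fun i => (lc K (opr K y M i) : Module.End K (M →ₗ[K] M)))
    (fun i => rc K (opr K y M i)) T (by
      intro i e
      ext1 m
      exact hμy i (e m)) (fun i e => rfl) n (fun _ => 1) (s0 ∘ₗ φ)
  have e1 : T (s0 ∘ₗ φ) = φ := by
    show μ ∘ₗ (s0 ∘ₗ φ) = φ
    rw [← LinearMap.comp_assoc, hs0, LinearMap.id_comp]
  rw [e1, hφ] at key
  set σ := NN (qq q) (aa a)
    (fun i => (lc K (opr K y (M →₀ R) i) : Module.End K (M →ₗ[K] (M →₀ R))))
    (fun i => rc K (opr K y M i)) n (fun _ => 1) (s0 ∘ₗ φ) with hσ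
  have hinv : ∀ i < n, ∀ m, opr K y (M →₀ R) i (σ m) = σ (opr K y M i m) := by
    intro i hi m
    have h1 := (h.qsys M (M →₀ R)).NN_inv n (fun _ => 1) (s0 ∘ₗ φ) i hi
    rw [← hσ] at h1
    unfold Dop at h1
    rw [one_smul] at h1
    have h2 : (lc K (opr K y (M →₀ R) i) : Module.End K (M →ₗ[K] (M →₀ R))) σ -
        (rc K (opr K y M i) : Module.End K (M →ₗ[K] (M →₀ R))) σ = 0 := h1
    have h3 : (lc K (opr K y (M →₀ R) i) : Module.End K (M →ₗ[K] (M →₀ R))) σ =
        (rc K (opr K y M i) : Module.End K (M →ₗ[K] (M →₀ R))) σ := sub_eq_zero.1 h2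
    exact congrArg (fun (f : M →ₗ[K] (M →₀ R)) => f m) h3
  refine ⟨{ toFun := σ, map_add' := map_add σ, map_smul' := h.linear σ ?_ }, ?_⟩
  · intro i m
    have h2 := hinv i i.2 m
    rw [opr_lt _ i.2, opr_lt _ i.2] at h2
    exact h2.symm
  · intro m
    exact congrArg (fun f => f m) key

end modules

end Pool.Agent.X317.QCI
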