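import Mathlib
import Pool.Agent.X317.QCI.Alg

/-!
# Rigid modules over quantum complete intersections are projective
-/

set_option autoImplicit false
set_option linter.all false

namespace Pool.Agent.X317.QCI

universe u

/-- `M × M` with another module structure -/
def Dbl (M : Type u) : Type u := M × M

instance (M : Type u) [AddCommGroup M] : AddCommGroup (Dbl M) := inferInstanceAs (AddCommGroup (M × M))
instance (K M : Type u) [Field K] [AddCommGroup M] [Module K M] : Module K (Dbl M) :=
  inferInstanceAs (Module K (M × M))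

section blk
variable {K M : Type u} [Field K] [AddCommGroup M] [Module K M]

/-- the block operator -/
def blk (X Z : Module.End K M) : Module.End K (Dbl M) where
  toFun w := ((X w.1 + Z w.2, X w.2) : M × M)
  map_add' w w' := by
    refine Prod.ext ?_ ?_
    · show X (w.1 + w'.1) + Z (w.2 + w'.2) = (X w.1 + Z w.2) + (X w'.1 + Z w'.2)
      rw [map_add, map_add]
      abel
    · exact map_add X _ _
  map_smul' c w := by
    refine Prod.ext ?_ ?_
    · show X (c • w.1) + Z (c • w.2) = c • (X w.1 + Z w.2)
      rw [map_smul, map_smul, smul_add]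
    · exact map_smul X _ _

theorem blk_mul (X Z X' Z' : Module.End K M) :
    blk X Z * blk X' Z' = blk (X * X') (X * Z' + Z * X') := by
  ext1 w
  refine Prod.ext ?_ ?_
  · show X (X' w.1 + Z' w.2) + Z (X' w.2) = X (X' w.1) + (X (Z' w.2) + Z (X' w.2))
    rw [map_add]
    abel
  · rfl

theorem blk_add (X Z X' Z' : Module.End K M) :
    blk X Z + blk X' Z' = blk (X + X') (Z + Z') := by
  ext1 w
  refine Prod.ext ?_ ?_
  · show (X w.1 + Z w.2) + (X' w.1 + Z' w.2) = (X w.1 + X' w.1) + (Z w.2 + Z' w.2)
    abel
  · rfl

theorem blk_smul (c : K) (X Z : Module.End K M) : c • blk X Z = blk (c • X) (c • Z) := by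
  ext1 w
  refine Prod.ext ?_ ?_
  · show c • (X w.1 + Z w.2) = c • X w.1 + c • Z w.2
    rw [smul_add]
  · rfl

theorem blk_zero : (blk 0 0 : Module.End K (Dbl M)) = 0 := by
  ext1 w
  refine Prod.ext ?_ ?_
  · show (0 : M) + 0 = 0
    rw [add_zero]
  · rfl

theorem blk_one : (1 : Module.End K (Dbl M)) = blk 1 0 := by
  ext1 w
  refine Prod.ext ?_ ?_
  · show w.1 = w.1 + 0
    rw [add_zero]
  · rfl

theorem blk_pow (X Z : Module.End K M) (m : ℕ) :
    blk X Z ^ m = blk (X ^ m) (∑ l ∈ Finset.range m, X ^ l * (Z * X ^ (m - 1 - l))) := by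
  induction m with
  | zero =>
    rw [pow_zero, pow_zero, Finset.sum_range_zero]
    exact blk_one
  | succ m ih =>
    rw [pow_succ', ih, blk_mul, ← pow_succ']
    congr 1
    rw [Finset.sum_range_succ', Finset.mul_sum]
    congr 1
    refine Finset.sum_congr rfl fun l hl => ?_
    rw [← mul_assoc, ← pow_succ', show m + 1 - 1 - (l + 1) = m - 1 - l by omega]

end blk

section
variable {K : Type u} [Field K] {R : Type u} [Ring R] [Algebra K R] {n : ℕ} {a : Fin n → ℕ}
  {q : Fin n → Fin n → K} {y : Fin n → R}

/-- every short exact sequence `0 → M → E → M → 0` splits -/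
def Splits (R : Type u) [Ring R] (M : Type u) [AddCommGroup M] [Module R M] : Prop :=
  ∀ (E : Type u) [AddCommGroup E] [Module R E] (i : M →ₗ[R] E) (π : E →ₗ[R] M),
    Function.Injective i → Function.Surjective π → Function.Exact i π →
    ∃ s : M →ₗ[R] E, π ∘ₗ s = LinearMap.id

theorem IsQ.split_coc (h : IsQ K a q y) (M : Type u) [AddCommGroup M] [Module K M] [Module R M]
    [IsScalarTower K R M] (hM : Splits R M) (Z : ℕ → Module.End K M)
    (h1 : ∀ i < n, ∀ j < n, opr K y M i * Z j - qq q i j • (Z j * opr K y M i) =
      qq q i j • (opr K y M j * Z i - qq q j i • (Z i * opr K y M j)))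
    (h2 : ∀ i < n, ∑ l ∈ Finset.range (aa a i),
      opr K y M i ^ l * (Z i * opr K y M i ^ (aa a i - 1 - l)) = 0) :
    ∃ θ : Module.End K M, ∀ i < n, opr K y M i * θ - θ * opr K y M i = Z i := by
  obtain ⟨f, hf⟩ := h.univ (Module.End K (Dbl M)) (fun i => blk (opr K y M i) (Z i)) (by
      intro i
      try dsimp only
      have ha : a i = aa a i := by
        unfold aa
        rw [dif_pos i.2]
      rw [ha, blk_pow, h.pow_opr, h2 i i.2, blk_zero]) (by
      intro i j hij
      try dsimp only
      rw [blk_mul, blk_mul, blk_smul, blk_add]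
      have hq : q i j = - qq q j i := by
        rw [qq_lt q (show (j : ℕ) < i from hij) i.2, neg_neg]
      have e1 : opr K y M j * opr K y M i + q i j • (opr K y M i * opr K y M j) = 0 := by
        rw [hq, h.rel_opr M j i, neg_smul, add_neg_cancel]
      have e2 : opr K y M j * Z i + Z j * opr K y M i + q i j • (opr K y M i * Z j +
          Z i * opr K y M j) = 0 := by
        have h3 := h1 j j.2 i i.2
        rw [smul_sub, smul_smul, qq_mul q h.q0, one_smul] at h3
        rw [hq, neg_smul, smul_add]
        have h4 := sub_eq_sub_iff_add_eq_add.1 h3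
        rw [h4]
        abel
      rw [e1, e2, blk_zero])
  letI mod : Module R (Dbl M) := @Module.compHom (Module.End K (Dbl M)) R (Dbl M) _ _ _ _ f.toRingHom
  have hact : ∀ (r : R) (w : Dbl M), r • w = f r w := fun r w => rfl
  haveI : IsScalarTower K R (Dbl M) := ⟨by
    intro c r w
    rw [hact, hact, map_smul]
    rfl⟩
  let i0 : M →ₗ[K] Dbl M :=
    { toFun := fun m => ((m, 0) : M × M)
      map_add' := fun m m' => Prod.ext rfl (add_zero (0 : M)).symm
      map_smul' := fun c m => Prod.ext rfl (smul_zero c).symm }
  let p0 : Dbl M →ₗ[K] M :=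
    { toFun := fun w => w.2
      map_add' := fun m m' => rfl
      map_smul' := fun c m => rfl }
  let i1 : M →ₗ[R] Dbl M :=
    { toFun := i0
      map_add' := map_add i0
      map_smul' := h.linear i0 (by
        intro i m
        rw [hact, hf]
        refine Prod.ext ?_ ?_
        · show y i • m = opr K y M i m + Z i 0
          rw [map_zero, add_zero, opr_lt M i.2]
        · show (0 : M) = opr K y M i 0
          rw [map_zero]) }
  let p1 : Dbl M →ₗ[R] M :=
    { toFun := p0
      map_add' := map_add p0
      map_smul' := h.linear p0 (by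
        intro i w
        rw [hact, hf]
        show opr K y M i w.2 = y i • w.2
        rw [opr_lt M i.2]) }
  obtain ⟨s, hs⟩ := hM (Dbl M) i1 p1 (by
      intro m m' hm
      exact congrArg (fun w : M × M => w.1) hm) (fun m => ⟨((0, m) : M × M), rfl⟩) (by
      intro w
      constructor
      · intro hw
        have hw' : w.2 = 0 := hw
        exact ⟨w.1, Prod.ext rfl hw'.symm⟩
      · rintro ⟨m, rfl⟩
        rfl)
  have hs2 : ∀ m, (s m).2 = m := fun m => congrArg (fun f => f m) hs
  let θ : Module.End K M :=
    { toFun := fun m => (s m).1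
      map_add' := fun m m' => by rw [map_add]; rfl
      map_smul' := fun c m => by
        rw [show s (c • m) = c • s m from (s.restrictScalars K).map_smul c m]
        rfl }
  refine ⟨-θ, fun i hi => ?_⟩
  ext m
  have h5 : s (y ⟨i, hi⟩ • m) = y ⟨i, hi⟩ • s m := map_smul s _ _
  have h6 := congrArg (fun w : M × M => w.1) h5
  have h7 : θ (opr K y M i m) = opr K y M i (θ m) + Z i m := by
    rw [hact, hf] at h6
    have h8 : (s (y ⟨i, hi⟩ • m)).1 = opr K y M i (s m).1 + Z i (s m).2 := h6
    rw [hs2] at h8
    rw [opr_lt M hi]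
    exact h8
  show opr K y M i (-(θ m)) - -(θ (opr K y M i m)) = Z i m
  rw [h7, map_neg]
  abel

theorem IsQ.main (h : IsQ K a q y) (M : Type u) [AddCommGroup M] [Module R M] [Module.Finite R M]
    (hM : Splits R M) : Module.Projective R M := by
  letI : Module K M := Module.compHom M (algebraMap K R)
  haveI : IsScalarTower K R M := IsScalarTower.of_algebraMap_smul (fun _ _ => rfl)
  haveI := h.finite
  haveI : Module.Finite K M := Module.Finite.trans R M
  let b := Module.finBasis K M
  let e := LinearMap.toMatrixAlgEquiv b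
  have hR : MR (fun i => e (opr K y M i)) (qq q) (aa a) := by
    refine ⟨qq_mul q h.q0, aa_pos h.ap, ?_, ?_⟩
    · intro i j
      try dsimp only
      rw [← map_mul, h.rel_opr M i j, map_smul, map_mul]
    · intro i
      try dsimp only
      rw [← map_pow, h.pow_opr, map_zero]
  have hH : MH (fun i => e (opr K y M i)) (qq q) (aa a) n (fun _ => 1) := by
    intro Z hZ
    obtain ⟨θ, hθ⟩ := h.split_coc M hM (fun i => e.symm (Z i)) (by
        intro i hi j hj
        try dsimp only
        apply e.injective
        have h3 := hZ.1 i hi j hj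
        try dsimp only at h3
        rw [one_mul, one_mul] at h3
        simp only [map_sub, map_smul, map_mul, AlgEquiv.apply_symm_apply]
        exact h3) (by
        intro i hi
        apply e.injective
        have h3 := hZ.2 i hi
        try dsimp only at h3
        rw [map_sum, map_zero, ← h3]
        refine Finset.sum_congr rfl fun l _ => ?_
        rw [one_pow, one_smul, map_mul, map_mul, map_pow, map_pow, AlgEquiv.apply_symm_apply])
    refine ⟨e θ, fun i hi => ?_⟩
    try dsimp only
    rw [one_smul, ← map_mul, ← map_mul, ← map_sub, hθ i hi, AlgEquiv.apply_symm_apply]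
  obtain ⟨φ, hφ⟩ := crit hR (qq_self q) hH
  refine h.proj M (e.symm φ) ?_
  have key := NN_nat (qq q) (aa a) (fun i => LinearMap.mulLeft K (e (opr K y M i)))
    (fun i => LinearMap.mulRight K (e (opr K y M i)))
    (fun i => (lc K (opr K y M i) : Module.End K (M →ₗ[K] M)))
    (fun i => rc K (opr K y M i)) e.symm.toLinearMap (by
      intro i x
      show e.symm (e (opr K y M i) * x) = opr K y M i * e.symm x
      rw [map_mul, AlgEquiv.symm_apply_apply]) (by
      intro i x
      show e.symm (x * e (opr K y M i)) = e.symm x * opr K y M i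
      rw [map_mul, AlgEquiv.symm_apply_apply]) n (fun _ => 1) φ
  rw [hφ] at key
  have e1 : e.symm.toLinearMap φ = e.symm φ := rfl
  have e2 : e.symm.toLinearMap 1 = LinearMap.id := map_one e.symm
  rw [e1, e2] at key
  exact key.symm

end

end Pool.Agent.X317.QCI
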