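import Mathlib
import Pool.Agent.X317.QCI.Main

/-!
# Vanishing of `Ext¹(M, M)` and split extensions
-/

set_option autoImplicit false
set_option linter.all false

namespace Pool.Agent.X317.QCI

universe u

open CategoryTheory CategoryTheory.Abelian

theorem splits_of_ext (R : Type u) [Ring R] (M : Type u) [AddCommGroup M] [Module R M]
    (h : Subsingleton (Ext (ModuleCat.of R M) (ModuleCat.of R M) 1)) : Splits R M := by
  intro E _ _ i π hi hπ hex
  let S : ShortComplex (ModuleCat.{u} R) :=
    ShortComplex.mk (ModuleCat.ofHom i) (ModuleCat.ofHom π) (by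
      ext m
      exact (hex (i m)).2 ⟨m, rfl⟩)
  have hS : S.ShortExact :=
    { exact := by
        rw [ShortComplex.moduleCat_exact_iff]
        intro w hw
        exact (hex w).1 hw
      mono_f := by
        rw [ModuleCat.mono_iff_injective]
        exact hi
      epi_g := by
        rw [ModuleCat.epi_iff_surjective]
        exact hπ }
  have h0 : (Ext.mk₀ (𝟙 S.X₃)).comp hS.extClass (zero_add 1) = 0 := by
    haveI : Subsingleton (Ext S.X₃ S.X₁ 1) := h
    exact Subsingleton.elim _ _
  obtain ⟨x, hx⟩ := Ext.covariant_sequence_exact₃ S.X₃ hS (Ext.mk₀ (𝟙 S.X₃)) (zero_add 1) h0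
  obtain ⟨s, rfl⟩ := (Ext.mk₀_bijective S.X₃ S.X₂).2 x
  rw [Ext.mk₀_comp_mk₀] at hx
  have h1 := (Ext.mk₀_bijective S.X₃ S.X₃).1 hx
  refine ⟨s.hom, ?_⟩
  have h2 := congrArg ModuleCat.Hom.hom h1
  exact h2

end Pool.Agent.X317.QCI
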